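import Pool.Agent.H99.Trap.Defs2

namespace Pool.Agent.H99.Trap

open MeasureTheory ProbabilityTheory Filter
open scoped ENNReal NNReal Topology

/-! ## MODULE A (basic facts on the walk law) -/

theorem measurable_sigmaMk {α : Type*} {β : α → Type*} [m : ∀ a, MeasurableSpace (β a)] (a : α) :
    Measurable (Sigma.mk a : β a → Sigma β) :=
  measurable_iff_le_map.2 (iInf_le _ a)

theorem measurableSet_sigma {α : Type*} {β : α → Type*} [m : ∀ a, MeasurableSpace (β a)]
    {s : Set (Sigma β)} : MeasurableSet s ↔ ∀ a, MeasurableSet (Sigma.mk a ⁻¹' s) := by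
  constructor
  · intro h a
    exact measurable_sigmaMk a h
  · intro h
    rw [Sigma.instMeasurableSpace, MeasurableSpace.measurableSet_iInf]
    exact h

theorem measurable_of_sigma {α : Type*} {β : α → Type*} [m : ∀ a, MeasurableSpace (β a)]
    {γ : Type*} [MeasurableSpace γ] {f : Sigma β → γ} (h : ∀ a, Measurable fun b => f ⟨a, b⟩) :
    Measurable f := by
  intro s hs
  rw [measurableSet_sigma]
  intro a
  exact h a hs

theorem measurableSet_sigma_prod {β : ℕ → Type*} [m : ∀ a, MeasurableSpace (β a)]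
    {δ : Type*} [MeasurableSpace δ] {s : Set (Sigma β × δ)}
    (h : ∀ a, MeasurableSet ((fun p : β a × δ => ((⟨a, p.1⟩ : Sigma β), p.2)) ⁻¹' s)) :
    MeasurableSet s := by
  have hm : ∀ a, MeasurableEmbedding (fun p : β a × δ => ((⟨a, p.1⟩ : Sigma β), p.2)) := by
    intro a
    have h1 : MeasurableEmbedding (Sigma.mk a : β a → Sigma β) := by
      refine ⟨sigma_mk_injective, measurable_sigmaMk a, ?_⟩
      intro t ht
      rw [measurableSet_sigma]
      intro b
      by_cases hab : a = b
      · subst hab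
        rw [Set.preimage_image_eq _ sigma_mk_injective]
        exact ht
      · have : (Sigma.mk b ⁻¹' (Sigma.mk a '' t)) = ∅ := by
          ext x
          simp only [Set.mem_preimage, Set.mem_image, Set.mem_empty_iff_false, iff_false,
            not_exists, not_and]
          intro y _ hy
          exact hab (congrArg Sigma.fst hy)
        rw [this]
        exact MeasurableSet.empty
    exact h1.prodMap MeasurableEmbedding.id
  have : s = ⋃ a, (fun p : β a × δ => ((⟨a, p.1⟩ : Sigma β), p.2)) ''
      ((fun p : β a × δ => ((⟨a, p.1⟩ : Sigma β), p.2)) ⁻¹' s) := by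
    ext ⟨⟨a, b⟩, c⟩
    simp only [Set.mem_iUnion, Set.mem_image, Set.mem_preimage]
    constructor
    · intro hs
      exact ⟨a, (b, c), hs, rfl⟩
    · rintro ⟨a', p, hp, hpe⟩
      rw [← hpe]
      exact hp
  rw [this]
  exact MeasurableSet.iUnion fun a => (hm a).measurableSet_image.2 (h a)

theorem measurable_of_sigma_prod {β : ℕ → Type*} [m : ∀ a, MeasurableSpace (β a)]
    {δ γ : Type*} [MeasurableSpace δ] [MeasurableSpace γ] {f : Sigma β × δ → γ}
    (h : ∀ a, Measurable fun p : β a × δ => f (⟨a, p.1⟩, p.2)) :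
    Measurable f := by
  intro s hs
  exact measurableSet_sigma_prod fun a => h a hs

theorem pos_apply {d : ℕ} (w : Traj d) (s : ℝ) (k : Fin d) :
    pos w s k = ∑ i : Fin w.1, if (w.2 i).1 ≤ s then stp (w.2 i).2 k else 0 := by
  unfold pos
  rw [Finset.sum_apply]
  refine Finset.sum_congr rfl fun i _ => ?_
  split_ifs <;> rfl

theorem measurable_pos (d : ℕ) : Measurable (fun p : Traj d × ℝ => pos p.1 p.2) := by
  apply measurable_of_sigma_prod
  intro n
  rw [measurable_pi_iff]
  intro k
  have h : Measurable (fun p : (Fin n → ℝ × Dir d) × ℝ =>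
      ∑ i : Fin n, if (p.1 i).1 ≤ p.2 then stp (p.1 i).2 k else 0) := by
    refine Finset.measurable_fun_sum (M := ℤ) _ fun i _ => ?_
    have h1 : Measurable (fun e : Dir d => stp e k) := measurable_of_countable _
    have h2 : MeasurableSet {p : (Fin n → ℝ × Dir d) × ℝ | (p.1 i).1 ≤ p.2} :=
      measurableSet_le (by fun_prop) (by fun_prop)
    exact Measurable.ite h2 (h1.comp (by fun_prop)) measurable_const
  refine Eq.mp (congrArg Measurable ?_) h
  funext p
  rw [pos_apply]

theorem jumpLaw_prob (d : ℕ) [NeZero d] {t : ℝ} (ht : 0 < t) :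
    IsProbabilityMeasure (jumpLaw d t) := by
  have h1 : IsProbabilityMeasure (cond (volume : Measure ℝ) (Set.Icc 0 t)) := by
    apply cond_isProbabilityMeasure_of_finite
    · simp [Real.volume_Icc, ht]
    · simp [Real.volume_Icc]
  have h2 : IsProbabilityMeasure (uniformOn (Set.univ : Set (Dir d))) := by
    have : Nonempty (Dir d) := ⟨(0, true)⟩
    exact isProbabilityMeasure_uniformOn Set.finite_univ Set.univ_nonempty
  unfold jumpLaw
  infer_instance

theorem lintegral_walkLaw (d : ℕ) (κ t : ℝ) (f : Traj d → ℝ≥0∞) (hf : Measurable f) :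
    ∫⁻ w, f w ∂(walkLaw d κ t) = ∑' n : ℕ, poissonMeasure (κ * t).toNNReal {n} *
      ∫⁻ m, f ⟨n, m⟩ ∂(Measure.pi fun _ : Fin n => jumpLaw d t) := by
  unfold walkLaw
  rw [lintegral_sum_measure]
  congr 1 with n
  rw [lintegral_smul_measure, lintegral_map hf (measurable_sigmaMk n)]
  rfl

theorem tsum_poisson (l : ℝ≥0) : ∑' n : ℕ, poissonMeasure l {n} = 1 := by
  have h := lintegral_countable' (μ := poissonMeasure l) (fun _ : ℕ => (1 : ℝ≥0∞))
  simp only [lintegral_const, measure_univ, mul_one, one_mul] at h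
  exact h.symm

theorem walkLaw_prob (d : ℕ) [NeZero d] {κ t : ℝ} (hκ : 0 ≤ κ) (ht : 0 < t) :
    IsProbabilityMeasure (walkLaw d κ t) := by
  constructor
  have := jumpLaw_prob d ht
  have h := lintegral_walkLaw d κ t (fun _ => 1) measurable_const
  simp only [lintegral_const, measure_univ, mul_one, one_mul] at h
  rw [h, tsum_poisson]

/-- exponential moment of the number of jumps -/
theorem walkLaw_exp (d : ℕ) [NeZero d] {κ t : ℝ} (hκ : 0 ≤ κ) (ht : 0 < t) :
    ∫⁻ w, ENNReal.ofReal (Real.exp w.1) ∂(walkLaw d κ t) =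
      ENNReal.ofReal (Real.exp ((Real.exp 1 - 1) * (κ * t))) := by
  have := jumpLaw_prob d ht
  have hl : 0 ≤ κ * t := by positivity
  rw [lintegral_walkLaw]
  · simp only [lintegral_const, measure_univ, mul_one]
    have h1 : ∀ n : ℕ, poissonMeasure (κ * t).toNNReal {n} * ENNReal.ofReal (Real.exp n) =
        ENNReal.ofReal (Real.exp (-(κ * t)) * ((κ * t * Real.exp 1) ^ n / n.factorial)) := by
      intro n
      rw [poissonMeasure_singleton, ← ENNReal.ofReal_mul (by positivity), Real.coe_toNNReal _ hl]
      congr 1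
      rw [mul_pow (κ * t), ← Real.exp_nat_mul, mul_one]
      ring
    simp_rw [h1]
    rw [← ENNReal.ofReal_tsum_of_nonneg (fun n => by positivity)
      ((Real.summable_pow_div_factorial _).mul_left _), tsum_mul_left]
    congr 1
    have h2 : ∑' n : ℕ, (κ * t * Real.exp 1) ^ n / n.factorial = Real.exp (κ * t * Real.exp 1) := by
      rw [Real.exp_eq_exp_ℝ, NormedSpace.exp_eq_tsum_div]
    rw [h2, ← Real.exp_add]
    congr 1
    ring
  · apply measurable_of_sigma
    intro n
    exact (measurable_const : Measurable fun _ : Fin n → ℝ × Dir d => ENNReal.ofReal (Real.exp n))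

end Pool.Agent.H99.Trap
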