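import Pool.Agent.H99.Trap.A

namespace Pool.Agent.H99.Trap

open MeasureTheory ProbabilityTheory Filter
open scoped ENNReal NNReal Topology

namespace B

/-- put one more jump in front of a trajectory -/
def consT {d : ℕ} (m : ℝ × Dir d) (w : Traj d) : Traj d :=
  ⟨w.1 + 1, Fin.cons m w.2⟩

theorem pos_consT {d : ℕ} (m : ℝ × Dir d) (w : Traj d) (u : ℝ) :
    pos (consT m w) u = (if m.1 ≤ u then stp m.2 else 0) + pos w u := by
  unfold pos consT
  simp only
  rw [Fin.sum_univ_succ]
  simp only [Fin.cons_zero, Fin.cons_succ]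

theorem measurable_consT {d : ℕ} :
    Measurable (fun p : Traj d × (ℝ × Dir d) => consT p.2 p.1) := by
  apply measurable_of_sigma_prod
  intro n
  have h1 : Measurable (fun p : (Fin n → ℝ × Dir d) × (ℝ × Dir d) =>
      (Fin.cons p.2 p.1 : Fin (n+1) → ℝ × Dir d)) := by
    rw [measurable_pi_iff]
    intro i
    refine Fin.cases ?_ (fun j => ?_) i
    · simpa using measurable_snd
    · simp only [Fin.cons_succ]
      fun_prop
  exact (measurable_sigmaMk (β := fun n : ℕ => (Fin n → ℝ × Dir d)) (n+1)).comp h1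

theorem lintegral_pi_succ {M : Type*} [MeasurableSpace M] (μ : Measure M) [SigmaFinite μ]
    (n : ℕ) (f : (Fin (n+1) → M) → ℝ≥0∞) (hf : Measurable f) :
    ∫⁻ m, f m ∂(Measure.pi fun _ : Fin (n+1) => μ) =
      ∫⁻ a, ∫⁻ m, f (Fin.cons a m) ∂(Measure.pi fun _ : Fin n => μ) ∂μ := by
  have h := (measurePreserving_piFinSuccAbove (fun _ : Fin (n+1) => μ) 0).symm
  have h2 : ∀ (x : M) (y : Fin n → M),
      (MeasurableEquiv.piFinSuccAbove (fun _ : Fin (n+1) => M) 0).symm (x, y) = Fin.cons x y := by
    intro x y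
    rw [MeasurableEquiv.piFinSuccAbove]
    simp
    rfl
  rw [← h.lintegral_comp hf]
  rw [lintegral_prod]
  · simp only [h2]
  · exact (hf.comp (MeasurableEquiv.measurable _)).aemeasurable


/-- indicator as an extended real -/
noncomputable def ind (p : Prop) [Decidable p] : ℝ≥0∞ := if p then 1 else 0

section

variable {d : ℕ} (μ : Measure (ℝ × Dir d)) (r s : ℝ)

noncomputable def aa (k : ℕ) (F : Traj d → ℝ≥0∞) : ℝ≥0∞ :=
  ∫⁻ m, F ⟨k, m⟩ * ∏ i, (if (m i).1 ≤ r then (1 : ℝ≥0∞) else 0) ∂(Measure.pi fun _ : Fin k => μ)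

noncomputable def bb (l : ℕ) (z : Fin d → ℤ) : ℝ≥0∞ :=
  ∫⁻ m, (∏ i, (if (m i).1 ≤ r then (0 : ℝ≥0∞) else 1)) *
    (if pos (⟨l, m⟩ : Traj d) s = z then 1 else 0) ∂(Measure.pi fun _ : Fin l => μ)

theorem measurable_pos_left (u : ℝ) : Measurable (fun w : Traj d => pos w u) :=
  (measurable_pos d).comp (by fun_prop : Measurable fun w : Traj d => (w, u))

theorem measurable_mk (n : ℕ) : Measurable (fun m : Fin n → ℝ × Dir d => (⟨n, m⟩ : Traj d)) :=
  measurable_sigmaMk (β := fun n : ℕ => (Fin n → ℝ × Dir d)) n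

theorem measurable_le_ind (r : ℝ) (a b : ℝ≥0∞) :
    Measurable (fun m : ℝ × Dir d => if m.1 ≤ r then a else b) :=
  Measurable.ite (measurableSet_le (by fun_prop) (by fun_prop)) measurable_const measurable_const

theorem measurable_prod_ind (k : ℕ) (r : ℝ) (a b : ℝ≥0∞) :
    Measurable (fun m : Fin k → ℝ × Dir d => ∏ i, (if (m i).1 ≤ r then a else b)) :=
  Finset.measurable_fun_prod _ fun i _ => (measurable_le_ind r a b).comp (measurable_pi_apply i)

variable [SigmaFinite μ]

theorem aa_succ (k : ℕ) (F : Traj d → ℝ≥0∞) (hF : Measurable F) :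
    aa μ r (k+1) F = ∫⁻ m0, (if m0.1 ≤ r then (1 : ℝ≥0∞) else 0) *
      aa μ r k (fun w => F (consT m0 w)) ∂μ := by
  unfold aa
  rw [lintegral_pi_succ]
  · congr 1 with m0
    rw [← lintegral_const_mul]
    · congr 1 with m
      rw [Fin.prod_univ_succ]
      simp only [Fin.cons_zero, Fin.cons_succ]
      have : F ⟨k+1, Fin.cons m0 m⟩ = F (consT m0 ⟨k, m⟩) := rfl
      rw [this]
      ring
    · apply Measurable.mul _ (measurable_prod_ind k r 1 0)
      exact hF.comp (measurable_consT.comp ((measurable_mk k).prodMk measurable_const))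
  · exact (hF.comp (measurable_mk (k+1))).mul (measurable_prod_ind (k+1) r 1 0)

theorem measurable_bb_int (l : ℕ) (z : Fin d → ℤ) :
    Measurable (fun m : Fin l → ℝ × Dir d => (∏ i, (if (m i).1 ≤ r then (0 : ℝ≥0∞) else 1)) *
    (if pos (⟨l, m⟩ : Traj d) s = z then 1 else 0)) := by
  apply (measurable_prod_ind l r 0 1).mul
  refine Measurable.ite ?_ measurable_const measurable_const
  exact ((measurable_pos_left s).comp (measurable_mk l)) (measurableSet_singleton z)

theorem bb_succ (l : ℕ) (z : Fin d → ℤ) :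
    bb μ r s (l+1) z = ∫⁻ m0, (if m0.1 ≤ r then (0 : ℝ≥0∞) else 1) *
      bb μ r s l (z - if m0.1 ≤ s then stp m0.2 else 0) ∂μ := by
  unfold bb
  rw [lintegral_pi_succ _ _ _ (measurable_bb_int r s (l+1) z)]
  congr 1 with m0
  rw [← lintegral_const_mul _ (measurable_bb_int r s l _)]
  congr 1 with m
  rw [Fin.prod_univ_succ]
  simp only [Fin.cons_zero, Fin.cons_succ]
  have h1 : pos (⟨l+1, Fin.cons m0 m⟩ : Traj d) s =
      (if m0.1 ≤ s then stp m0.2 else 0) + pos (⟨l, m⟩ : Traj d) s := pos_consT m0 ⟨l, m⟩ s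
  rw [h1, mul_assoc]
  congr 2
  have h2 : ((if m0.1 ≤ s then stp m0.2 else 0) + pos (⟨l, m⟩ : Traj d) s = z) ↔
      (pos (⟨l, m⟩ : Traj d) s = z - (if m0.1 ≤ s then stp m0.2 else 0)) := by
    constructor
    · intro h; rw [← h]; abel
    · intro h; rw [h]; abel
  simp only [h2]

theorem split (hrs : r ≤ s) (n : ℕ) (F : Traj d → ℝ≥0∞) (hF : Measurable F)
    (hdep : ∀ w w' : Traj d, (∀ u ≤ r, pos w u = pos w' u) → F w = F w') (z : Fin d → ℤ) :
    ∫⁻ m, F ⟨n, m⟩ * (if pos (⟨n, m⟩ : Traj d) s - pos (⟨n, m⟩ : Traj d) r = z then 1 else 0)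
        ∂(Measure.pi fun _ : Fin n => μ) =
      ∑ p ∈ Finset.HasAntidiagonal.antidiagonal n, (n.choose p.1 : ℝ≥0∞) * (aa μ r p.1 F * bb μ r s p.2 z) := by
  induction n generalizing F z with
  | zero =>
    simp only [Finset.HasAntidiagonal.antidiagonal_zero, Finset.sum_singleton, Nat.choose_self, Nat.cast_one,
      one_mul]
    unfold aa bb
    have e1 : ∀ (u : ℝ) (m : Fin 0 → ℝ × Dir d), pos (⟨0, m⟩ : Traj d) u = 0 := by
      intro u m
      unfold pos
      simp
    simp only [e1, Finset.univ_eq_empty, Finset.prod_empty, mul_one, one_mul, sub_self]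
    have h3 : Measurable (fun m : Fin 0 → ℝ × Dir d => F ⟨0, m⟩) := hF.comp (measurable_mk 0)
    rw [lintegral_mul_const _ h3]
    simp
  | succ n ih =>
    rw [lintegral_pi_succ]
    · have key : ∀ m0 : ℝ × Dir d, (∫⁻ m, F ⟨n+1, Fin.cons m0 m⟩ *
          (if pos (⟨n+1, Fin.cons m0 m⟩ : Traj d) s - pos (⟨n+1, Fin.cons m0 m⟩ : Traj d) r = z
            then 1 else 0) ∂(Measure.pi fun _ : Fin n => μ)) =
          ∑ p ∈ Finset.HasAntidiagonal.antidiagonal n, (n.choose p.1 : ℝ≥0∞) *
            (aa μ r p.1 F * ((if m0.1 ≤ r then (0 : ℝ≥0∞) else 1) *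
              bb μ r s p.2 (z - if m0.1 ≤ s then stp m0.2 else 0))) +
          ∑ p ∈ Finset.HasAntidiagonal.antidiagonal n, (n.choose p.1 : ℝ≥0∞) *
            (((if m0.1 ≤ r then (1 : ℝ≥0∞) else 0) * aa μ r p.1 (fun w => F (consT m0 w))) *
              bb μ r s p.2 z) := by
        intro m0
        have hc : ∀ m : Fin n → ℝ × Dir d, (⟨n+1, Fin.cons m0 m⟩ : Traj d) = consT m0 ⟨n, m⟩ :=
          fun m => rfl
        simp only [hc, pos_consT]
        by_cases h0 : m0.1 ≤ r
        · have h0s : m0.1 ≤ s := h0.trans hrs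
          simp only [if_pos h0, if_pos h0s, zero_mul, mul_zero, Finset.sum_const_zero, zero_add,
            one_mul, add_sub_add_left_eq_sub]
          apply ih (fun w => F (consT m0 w))
          · exact hF.comp (measurable_consT.comp (measurable_id.prodMk measurable_const))
          · intro w w' hw
            apply hdep
            intro u hu
            rw [pos_consT, pos_consT, hw u hu]
        · simp only [if_neg h0, zero_mul, mul_zero, Finset.sum_const_zero, add_zero, one_mul,
            zero_add]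
          have hF2 : ∀ w : Traj d, F (consT m0 w) = F w := by
            intro w
            apply hdep
            intro u hu
            rw [pos_consT, if_neg (by intro h; exact h0 (h.trans hu)), zero_add]
          simp only [hF2]
          rw [← ih F hF hdep]
          congr 1 with m
          congr 1
          have h2 : ((if m0.1 ≤ s then stp m0.2 else 0) + pos (⟨n, m⟩ : Traj d) s -
              pos (⟨n, m⟩ : Traj d) r = z) ↔
              (pos (⟨n, m⟩ : Traj d) s - pos (⟨n, m⟩ : Traj d) r =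
                z - (if m0.1 ≤ s then stp m0.2 else 0)) := by
            constructor
            · intro h; rw [← h]; abel
            · intro h
              have : (if m0.1 ≤ s then stp m0.2 else 0) + pos (⟨n, m⟩ : Traj d) s -
                pos (⟨n, m⟩ : Traj d) r = (if m0.1 ≤ s then stp m0.2 else 0) +
                  (pos (⟨n, m⟩ : Traj d) s - pos (⟨n, m⟩ : Traj d) r) := by abel
              rw [this, h]; abel
          simp only [h2]
      simp only [key]
      have hmA : ∀ k, Measurable (fun m0 : ℝ × Dir d =>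
          (if m0.1 ≤ r then (1 : ℝ≥0∞) else 0) * aa μ r k (fun w => F (consT m0 w))) := by
        intro k
        apply (measurable_le_ind r 1 0).mul
        unfold aa
        apply Measurable.lintegral_prod_right'
          (f := fun q : (ℝ × Dir d) × (Fin k → ℝ × Dir d) => F (consT q.1 ⟨k, q.2⟩) *
            ∏ i, (if (q.2 i).1 ≤ r then (1 : ℝ≥0∞) else 0))
        apply Measurable.mul
        · exact hF.comp (measurable_consT.comp
            (((measurable_mk k).comp measurable_snd).prodMk measurable_fst))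
        · exact (measurable_prod_ind k r 1 0).comp measurable_snd
      have hmB : ∀ l, Measurable (fun m0 : ℝ × Dir d =>
          (if m0.1 ≤ r then (0 : ℝ≥0∞) else 1) *
              bb μ r s l (z - if m0.1 ≤ s then stp m0.2 else 0)) := by
        intro l
        apply (measurable_le_ind r 0 1).mul
        have h1 : Measurable (fun m0 : ℝ × Dir d => z - if m0.1 ≤ s then stp m0.2 else 0) := by
          apply measurable_const.sub
          refine Measurable.ite (measurableSet_le (by fun_prop) (by fun_prop)) ?_ measurable_const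
          exact (measurable_of_countable (stp : Dir d → Fin d → ℤ)).comp measurable_snd
        exact (measurable_of_countable (bb μ r s l)).comp h1
      rw [lintegral_add_left, lintegral_finsetSum, lintegral_finsetSum]
      · rw [Finset.sum_antidiagonal_choose_succ_mul (fun k l => aa μ r k F * bb μ r s l z)]
        congr 1
        · refine Finset.sum_congr rfl fun p _ => ?_
          rw [lintegral_const_mul _ ((hmB p.2).const_mul _), lintegral_const_mul _ (hmB p.2),
            bb_succ]
        · refine Finset.sum_congr rfl fun p hp => ?_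
          rw [lintegral_const_mul _ ((hmA p.1).mul_const _), lintegral_mul_const _ (hmA p.1),
            aa_succ μ r p.1 F hF]
          rw [Finset.HasAntidiagonal.mem_antidiagonal] at hp
          rw [← hp, Nat.choose_symm_add]
      · intro p _
        exact ((hmA p.1).mul_const _).const_mul _
      · intro p _
        exact ((hmB p.2).const_mul _).const_mul _
      · refine Finset.measurable_fun_sum _ fun p _ => ?_
        exact ((hmB p.2).const_mul _).const_mul _
    · apply Measurable.mul (hF.comp (measurable_mk (n+1)))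
      refine Measurable.ite ?_ measurable_const measurable_const
      exact (((measurable_pos_left s).comp (measurable_mk (n+1))).sub
        ((measurable_pos_left r).comp (measurable_mk (n+1)))) (measurableSet_singleton z)

end


theorem rwP_zero (d : ℕ) (z : Fin d → ℤ) : rwP d 0 z = if 0 = z then 1 else 0 := by
  unfold rwP
  simp only [Finset.univ_eq_empty, Finset.sum_empty, pow_zero, div_one]
  by_cases h : 0 = z
  · rw [if_pos h, Fintype.card_subtype]
    simp [h]
  · rw [if_neg h, Fintype.card_subtype]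
    simp [h]

theorem rwP_succ (d n : ℕ) (z : Fin d → ℤ) :
    rwP d (n+1) z = (∑ e : Dir d, rwP d n (z - stp e)) / (2 * d) := by
  unfold rwP
  rw [← Finset.sum_div, div_div, ← pow_succ]
  congr 1
  rw [Fintype.card_subtype, Finset.card_filter, ← (Fin.consEquiv fun _ => Dir d).sum_comp,
    Fintype.sum_prod_type, Nat.cast_sum]
  refine Finset.sum_congr rfl fun e _ => ?_
  rw [Fintype.card_subtype, Finset.card_filter]
  congr 1
  refine Finset.sum_congr rfl fun f _ => ?_
  have h1 : (∑ i, stp (Fin.consEquiv (fun _ => Dir d) (e, f) i)) = stp e + ∑ i, stp (f i) := by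
    rw [Fin.sum_univ_succ]
    rfl
  rw [h1]
  have h2 : (stp e + ∑ i, stp (f i) = z) ↔ (∑ i, stp (f i) = z - stp e) := by
    constructor
    · intro h; rw [← h]; abel
    · intro h; rw [h]; abel
  simp only [h2]

theorem rwP_nonneg (d n : ℕ) (z : Fin d → ℤ) : 0 ≤ rwP d n z := by
  unfold rwP; positivity

theorem rwP_le_one (d n : ℕ) [NeZero d] (z : Fin d → ℤ) : rwP d n z ≤ 1 := by
  have hd : (0:ℝ) < d := by exact_mod_cast Nat.pos_of_ne_zero (NeZero.ne d)
  unfold rwP
  rw [div_le_one (by positivity)]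
  have h1 : Fintype.card {e : Fin n → Dir d // ∑ i, stp (e i) = z} ≤
      Fintype.card (Fin n → Dir d) := Fintype.card_subtype_le _
  have h2 : Fintype.card (Fin n → Dir d) = (2 * d) ^ n := by
    simp [Dir, mul_comm]
  rw [h2] at h1
  exact_mod_cast h1

theorem lintegral_unif (d : ℕ) [NeZero d] (f : Dir d → ℝ≥0∞) :
    ∫⁻ e, f e ∂(uniformOn (Set.univ : Set (Dir d))) =
      ∑ e : Dir d, ENNReal.ofReal (1 / (2 * d)) * f e := by
  have hd : (0:ℝ) < d := by exact_mod_cast Nat.pos_of_ne_zero (NeZero.ne d)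
  rw [lintegral_fintype]
  refine Finset.sum_congr rfl fun e _ => ?_
  rw [mul_comm]
  congr 1
  rw [uniformOn_univ]
  simp only [Measure.count_singleton, Fintype.card_prod, Fintype.card_fin, Fintype.card_bool]
  rw [ENNReal.ofReal_div_of_pos (by positivity)]
  simp [ENNReal.ofReal_mul, mul_comm]

theorem cond_Icc (t : ℝ) (ht : 0 < t) (a b : ℝ) (ha : 0 ≤ a) (_hab : a ≤ b) (hb : b ≤ t) :
    cond (volume : Measure ℝ) (Set.Icc 0 t) (Set.Ioc a b) = ENNReal.ofReal ((b - a) / t) := by
  rw [cond_apply measurableSet_Icc]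
  have h1 : Set.Icc 0 t ∩ Set.Ioc a b = Set.Ioc a b := by
    ext x
    simp only [Set.mem_inter_iff, Set.mem_Icc, Set.mem_Ioc]
    constructor
    · exact fun h => h.2
    · exact fun h => ⟨⟨by linarith [h.1], by linarith [h.2]⟩, h⟩
  rw [h1, Real.volume_Ioc, Real.volume_Icc, sub_zero, ENNReal.ofReal_div_of_pos ht,
    ENNReal.div_eq_inv_mul]

theorem bb_succ' {d : ℕ} [NeZero d] {t r s : ℝ} (ht : 0 < t) (hr : 0 ≤ r)
    (hrs : r ≤ s) (hst : s ≤ t) (l : ℕ) (z : Fin d → ℤ) :
    bb (jumpLaw d t) r s (l+1) z = ENNReal.ofReal ((t - s) / t) * bb (jumpLaw d t) r s l z +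
      ENNReal.ofReal ((s - r) / t) * ∑ e : Dir d, ENNReal.ofReal (1 / (2 * d)) *
        bb (jumpLaw d t) r s l (z - stp e) := by
  have := jumpLaw_prob d ht
  have hpc : IsProbabilityMeasure (cond (volume : Measure ℝ) (Set.Icc 0 t)) := by
    apply cond_isProbabilityMeasure_of_finite
    · simp [Real.volume_Icc, ht]
    · simp [Real.volume_Icc]
  have hpu : IsProbabilityMeasure (uniformOn (Set.univ : Set (Dir d))) := by
    have : Nonempty (Dir d) := ⟨(0, true)⟩
    exact isProbabilityMeasure_uniformOn Set.finite_univ Set.univ_nonempty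
  rw [bb_succ]
  set b := bb (jumpLaw d t) r s l with hb
  have hmB : Measurable (fun m0 : ℝ × Dir d =>
          (if m0.1 ≤ r then (0 : ℝ≥0∞) else 1) *
              b (z - if m0.1 ≤ s then stp m0.2 else 0)) := by
    apply (measurable_le_ind r 0 1).mul
    have h1 : Measurable (fun m0 : ℝ × Dir d => z - if m0.1 ≤ s then stp m0.2 else 0) := by
      apply measurable_const.sub
      refine Measurable.ite (measurableSet_le (by fun_prop) (by fun_prop)) ?_ measurable_const
      exact (measurable_of_countable (stp : Dir d → Fin d → ℤ)).comp measurable_snd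
    exact (measurable_of_countable b).comp h1
  unfold jumpLaw
  rw [lintegral_prod _ hmB.aemeasurable]
  simp only [lintegral_unif]
  have key : ∀ τ : ℝ, (∑ e : Dir d, ENNReal.ofReal (1 / (2 * d)) *
      ((if τ ≤ r then (0 : ℝ≥0∞) else 1) * b (z - if τ ≤ s then stp e else 0))) =
      (Set.Ioc r s).indicator (fun _ => ∑ e : Dir d, ENNReal.ofReal (1 / (2 * d)) * b (z - stp e)) τ +
      (Set.Ioi s).indicator (fun _ => b z) τ := by
    intro τ
    by_cases h1 : τ ≤ r
    · have h2 : τ ∉ Set.Ioc r s := fun h => absurd h1 (not_le.2 h.1)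
      have h3 : τ ∉ Set.Ioi s := fun h => absurd (h1.trans hrs) (not_le.2 h)
      rw [Set.indicator_of_notMem h2, Set.indicator_of_notMem h3]
      simp [h1]
    · by_cases h4 : τ ≤ s
      · have h2 : τ ∈ Set.Ioc r s := ⟨not_le.1 h1, h4⟩
        have h3 : τ ∉ Set.Ioi s := fun h => absurd h4 (not_le.2 h)
        rw [Set.indicator_of_mem h2, Set.indicator_of_notMem h3]
        simp [h1, h4]
      · have h2 : τ ∉ Set.Ioc r s := fun h => absurd h.2 h4
        have h3 : τ ∈ Set.Ioi s := not_le.1 h4
        rw [Set.indicator_of_notMem h2, Set.indicator_of_mem h3]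
        simp only [h1, h4, if_false, one_mul, sub_zero, zero_add]
        rw [← Finset.sum_mul]
        have h5 : (∑ e : Dir d, ENNReal.ofReal (1 / (2 * d))) = 1 := by
          have := lintegral_unif d (fun _ => 1)
          simp only [lintegral_const, measure_univ, mul_one] at this
          exact this.symm
        rw [h5, one_mul]
  simp only [key]
  rw [lintegral_add_left (by measurability), lintegral_indicator measurableSet_Ioc,
    lintegral_indicator measurableSet_Ioi, setLIntegral_const, setLIntegral_const,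
    cond_Icc t ht r s hr hrs hst]
  have h6 : cond (volume : Measure ℝ) (Set.Icc 0 t) (Set.Ioi s) = ENNReal.ofReal ((t - s) / t) := by
    rw [← cond_Icc t ht s t (hr.trans hrs) hst le_rfl, cond_apply measurableSet_Icc,
      cond_apply measurableSet_Icc]
    congr 2
    ext x
    simp only [Set.mem_inter_iff, Set.mem_Icc, Set.mem_Ioc, Set.mem_Ioi]
    tauto
  rw [h6]
  ring


theorem bb_zero {d : ℕ} (μ : Measure (ℝ × Dir d)) (r s : ℝ) (z : Fin d → ℤ) :
    bb μ r s 0 z = ENNReal.ofReal (rwP d 0 z) := by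
  unfold bb
  have e1 : ∀ (u : ℝ) (m : Fin 0 → ℝ × Dir d), pos (⟨0, m⟩ : Traj d) u = 0 := by
    intro u m
    unfold pos
    simp
  simp only [e1, Finset.univ_eq_empty, Finset.prod_empty, one_mul]
  rw [rwP_zero]
  split_ifs <;> simp

theorem bb_formula {d : ℕ} [NeZero d] {t r s : ℝ} (ht : 0 < t) (hr : 0 ≤ r)
    (hrs : r ≤ s) (hst : s ≤ t) (l : ℕ) (z : Fin d → ℤ) :
    bb (jumpLaw d t) r s l z = ∑ p ∈ Finset.HasAntidiagonal.antidiagonal l,
      (l.choose p.1 : ℝ≥0∞) * (ENNReal.ofReal ((s - r) / t) ^ p.1 * ENNReal.ofReal (rwP d p.1 z) *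
        ENNReal.ofReal ((t - s) / t) ^ p.2) := by
  have hd : (0:ℝ) < d := by exact_mod_cast Nat.pos_of_ne_zero (NeZero.ne d)
  induction l generalizing z with
  | zero =>
    rw [bb_zero]
    simp
  | succ l ih =>
    rw [bb_succ' ht hr hrs hst,
      Finset.sum_antidiagonal_choose_succ_mul (fun k l => ENNReal.ofReal ((s - r) / t) ^ k *
        ENNReal.ofReal (rwP d k z) * ENNReal.ofReal ((t - s) / t) ^ l)]
    congr 1
    · rw [ih, Finset.mul_sum]
      refine Finset.sum_congr rfl fun p _ => ?_
      rw [pow_succ]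
      ring
    · simp only [ih]
      simp only [Finset.mul_sum]
      rw [Finset.sum_comm]
      refine Finset.sum_congr rfl fun p hp => ?_
      rw [Finset.HasAntidiagonal.mem_antidiagonal] at hp
      have h1 : ENNReal.ofReal (rwP d (p.1+1) z) =
          ∑ e : Dir d, ENNReal.ofReal (1 / (2 * d)) * ENNReal.ofReal (rwP d p.1 (z - stp e)) := by
        rw [rwP_succ, Finset.sum_div, ENNReal.ofReal_sum_of_nonneg]
        · refine Finset.sum_congr rfl fun e _ => ?_
          rw [← ENNReal.ofReal_mul (by positivity)]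
          congr 1
          ring
        · intro e _
          exact div_nonneg (rwP_nonneg _ _ _) (by positivity)
      rw [h1, pow_succ]
      have h2 : (l.choose p.1 : ℝ≥0∞) = (l.choose p.2 : ℝ≥0∞) := by
        rw [← hp, Nat.choose_symm_add]
      rw [← h2]
      simp only [Finset.mul_sum, Finset.sum_mul]
      refine Finset.sum_congr rfl fun e _ => ?_
      ring

/-- exponential weights -/
noncomputable def wt (L : ℝ) (n : ℕ) : ℝ≥0∞ := ENNReal.ofReal (L ^ n / n.factorial)

theorem wt_mul {L : ℝ} (hL : 0 ≤ L) (i j : ℕ) :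
    wt L (i + j) * ((i + j).choose i : ℝ≥0∞) = wt L i * wt L j := by
  unfold wt
  have h1 : (((i + j).choose i : ℕ) : ℝ≥0∞) = ENNReal.ofReal ((i + j).choose i : ℝ) := by
    rw [ENNReal.ofReal_natCast]
  rw [h1, ← ENNReal.ofReal_mul (by positivity), ← ENNReal.ofReal_mul (by positivity)]
  congr 1
  have h2 := Nat.add_choose_mul_factorial_mul_factorial i j
  have h3 : (((i + j).choose i : ℕ) : ℝ) * i.factorial * j.factorial = (i + j).factorial := by
    rw [Nat.choose_symm_add]
    exact_mod_cast h2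
  have hi : (i.factorial : ℝ) ≠ 0 := by positivity
  have hj : (j.factorial : ℝ) ≠ 0 := by positivity
  have hij : ((i + j).factorial : ℝ) ≠ 0 := by positivity
  rw [div_mul_div_comm, ← pow_add, div_mul_eq_mul_div, div_eq_div_iff hij (by positivity), ← h3]
  ring

theorem egf_mul {L : ℝ} (hL : 0 ≤ L) (a b : ℕ → ℝ≥0∞) :
    ∑' n, wt L n * ∑ p ∈ Finset.HasAntidiagonal.antidiagonal n, (n.choose p.1 : ℝ≥0∞) *
      (a p.1 * b p.2) = (∑' n, wt L n * a n) * ∑' n, wt L n * b n := by
  have h1 : ∀ n, wt L n * ∑ p ∈ Finset.HasAntidiagonal.antidiagonal n, (n.choose p.1 : ℝ≥0∞) *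
      (a p.1 * b p.2) = ∑ p ∈ Finset.HasAntidiagonal.antidiagonal n,
        (wt L p.1 * a p.1) * (wt L p.2 * b p.2) := by
    intro n
    rw [Finset.mul_sum]
    refine Finset.sum_congr rfl fun p hp => ?_
    rw [Finset.HasAntidiagonal.mem_antidiagonal] at hp
    rw [← hp, ← mul_assoc, wt_mul hL]
    ring
  simp only [h1]
  rw [← ENNReal.tsum_mul_right]
  simp only [← ENNReal.tsum_mul_left]
  rw [← ENNReal.tsum_prod (f := fun i j => (wt L i * a i) * (wt L j * b j))]
  rw [← (Finset.HasAntidiagonal.sigmaAntidiagonalEquivProd (A := ℕ)).tsum_eq]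
  rw [ENNReal.tsum_sigma']
  refine tsum_congr fun n => ?_
  rw [← Finset.tsum_subtype]
  rfl

theorem egf_exp {L : ℝ} (hL : 0 ≤ L) {q : ℝ} (hq : 0 ≤ q) :
    ∑' n, wt L n * ENNReal.ofReal q ^ n = ENNReal.ofReal (Real.exp (L * q)) := by
  have h1 : ∀ n, wt L n * ENNReal.ofReal q ^ n = ENNReal.ofReal ((L * q) ^ n / n.factorial) := by
    intro n
    unfold wt
    rw [← ENNReal.ofReal_pow hq, ← ENNReal.ofReal_mul (by positivity)]
    congr 1
    rw [mul_pow]
    ring
  simp only [h1]
  rw [← ENNReal.ofReal_tsum_of_nonneg (fun n => by positivity)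
      (Real.summable_pow_div_factorial _)]
  congr 1
  rw [Real.exp_eq_exp_ℝ, NormedSpace.exp_eq_tsum_div]

theorem egf_hk {d : ℕ} [NeZero d] {L : ℝ} (hL : 0 ≤ L) {q : ℝ} (hq : 0 ≤ q) (z : Fin d → ℤ) :
    ∑' n, wt L n * (ENNReal.ofReal q ^ n * ENNReal.ofReal (rwP d n z)) =
      ENNReal.ofReal (Real.exp (L * q)) * ENNReal.ofReal (hk d (L * q) z) := by
  have h1 : ∀ n, wt L n * (ENNReal.ofReal q ^ n * ENNReal.ofReal (rwP d n z)) =
      ENNReal.ofReal ((L * q) ^ n / n.factorial * rwP d n z) := by
    intro n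
    unfold wt
    rw [← ENNReal.ofReal_pow hq, ← ENNReal.ofReal_mul (by positivity),
      ← ENNReal.ofReal_mul (by positivity)]
    congr 1
    rw [mul_pow]
    ring
  simp only [h1]
  have hs : Summable (fun n : ℕ => (L * q) ^ n / n.factorial * rwP d n z) := by
    refine Summable.of_nonneg_of_le (fun n => ?_) (fun n => ?_)
      (Real.summable_pow_div_factorial (L * q))
    · exact mul_nonneg (by positivity) (rwP_nonneg _ _ _)
    · exact mul_le_of_le_one_right (by positivity) (rwP_le_one _ _ _)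
  rw [← ENNReal.ofReal_tsum_of_nonneg (fun n => mul_nonneg (by positivity) (rwP_nonneg _ _ _)) hs,
    ← ENNReal.ofReal_mul (by positivity)]
  congr 1
  unfold hk
  rw [← tsum_mul_left]
  refine tsum_congr fun n => ?_
  rw [Real.exp_neg]
  have := Real.exp_ne_zero (L * q)
  field_simp

theorem master {d : ℕ} [NeZero d] {ρ t r s : ℝ} (hρ : 0 < ρ) (ht : 0 < t) (hr : 0 ≤ r)
    (hrs : r ≤ s) (hst : s ≤ t) (F : Traj d → ℝ≥0∞) (hF : Measurable F)
    (hdep : ∀ w w' : Traj d, (∀ u ≤ r, pos w u = pos w' u) → F w = F w') (z : Fin d → ℤ) :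
    ∫⁻ w, F w * (if pos w s - pos w r = z then 1 else 0) ∂(walkLaw d ρ t) =
      ENNReal.ofReal (Real.exp (-(ρ * t))) *
      ((∑' n, wt (ρ * t) n * aa (jumpLaw d t) r n F) * (ENNReal.ofReal (Real.exp (ρ * (t - r))) *
        ENNReal.ofReal (hk d (ρ * (s - r)) z))) := by
  have := jumpLaw_prob d ht
  have hL : 0 ≤ ρ * t := by positivity
  rw [lintegral_walkLaw]
  · have hPo : ∀ n : ℕ, poissonMeasure (ρ * t).toNNReal {n} =
        ENNReal.ofReal (Real.exp (-(ρ * t))) * wt (ρ * t) n := by
      intro n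
      unfold wt
      rw [poissonMeasure_singleton, Real.coe_toNNReal _ hL, ← ENNReal.ofReal_mul (by positivity)]
      congr 1
      ring
    simp only [split (jumpLaw d t) r s hrs _ F hF hdep, hPo, mul_assoc]
    have h5 := egf_mul hL (fun k => aa (jumpLaw d t) r k F) (fun l => bb (jumpLaw d t) r s l z)
    rw [ENNReal.tsum_mul_left, h5]
    congr 2
    have h6 := egf_mul hL
      (fun k => ENNReal.ofReal ((s - r) / t) ^ k * ENNReal.ofReal (rwP d k z))
      (fun k => ENNReal.ofReal ((t - s) / t) ^ k)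
    simp only [bb_formula ht hr hrs hst]
    rw [h6, egf_exp hL (by apply div_nonneg <;> linarith),
      egf_hk hL (by apply div_nonneg <;> linarith)]
    have e1 : ρ * t * ((s - r) / t) = ρ * (s - r) := by field_simp
    have e2 : ρ * t * ((t - s) / t) = ρ * (t - s) := by field_simp
    rw [e1, e2, mul_right_comm, ← ENNReal.ofReal_mul (Real.exp_nonneg _), ← Real.exp_add]
    congr 3
    ring
  · apply hF.mul
    refine Measurable.ite ?_ measurable_const measurable_const
    exact ((measurable_pos_left s).sub (measurable_pos_left r)) (measurableSet_singleton z)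

end B

theorem markov {d : ℕ} [NeZero d] {ρ t r s : ℝ} (hρ : 0 < ρ) (ht : 0 < t) (hr : 0 ≤ r)
    (hrs : r ≤ s) (hst : s ≤ t) (F : Traj d → ℝ≥0∞) (hF : Measurable F)
    (hdep : ∀ w w' : Traj d, (∀ u ≤ r, pos w u = pos w' u) → F w = F w') (z : Fin d → ℤ) :
    ∫⁻ w, F w * (if pos w s - pos w r = z then 1 else 0) ∂(walkLaw d ρ t) =
      (∫⁻ w, F w ∂(walkLaw d ρ t)) * ENNReal.ofReal (hk d (ρ * (s - r)) z) := by
  have h1 := B.master hρ ht hr hrs hst F hF hdep z
  have h2 := B.master hρ ht hr le_rfl (hrs.trans hst) F hF hdep 0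
  have h3 : hk d (ρ * (r - r)) 0 = 1 := by
    rw [sub_self, mul_zero]
    unfold hk
    rw [tsum_eq_single 0]
    · rw [B.rwP_zero]; simp
    · intro n hn
      simp [hn]
  simp only [sub_self, if_true, mul_one] at h2
  simp only [mul_zero] at h2
  rw [sub_self, mul_zero] at h3
  rw [h3, ENNReal.ofReal_one, mul_one] at h2
  rw [h1, h2]
  ring

end Pool.Agent.H99.Trap
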