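import Pool.Agent.H99.Trap.B

namespace Pool.Agent.H99.Trap

open MeasureTheory ProbabilityTheory Filter
open scoped ENNReal NNReal Topology

namespace D2

theorem measurable_occ {α : Type*} [MeasurableSpace α] {d : ℕ} (x : α → ℝ → Fin d → ℤ)
    (hx : Measurable (fun p : α × ℝ => x p.1 p.2)) (y : Fin d → ℤ) (t : ℝ) :
    Measurable (fun p : α × Traj d => occ (x p.1) y p.2 t) := by
  unfold occ
  have h1 : Measurable (fun q : (α × Traj d) × ℝ =>
      (if y + pos q.1.2 q.2 = x q.1.1 q.2 then (1 : ℝ) else 0)) := by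
    refine Measurable.ite ?_ measurable_const measurable_const
    have ha : Measurable (fun q : (α × Traj d) × ℝ => y + pos q.1.2 q.2) :=
      measurable_const.add ((measurable_pos d).comp
        (by fun_prop : Measurable fun q : (α × Traj d) × ℝ => (q.1.2, q.2)))
    have hb : Measurable (fun q : (α × Traj d) × ℝ => x q.1.1 q.2) :=
      hx.comp (by fun_prop : Measurable fun q : (α × Traj d) × ℝ => (q.1.1, q.2))
    exact measurableSet_eq_fun ha hb
  have h2 := h1.stronglyMeasurable
  simp only [intervalIntegral]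
  apply Measurable.sub
  · exact (h2.integral_prod_right' (ν := volume.restrict (Set.Ioc 0 t))).measurable
  · exact (h2.integral_prod_right' (ν := volume.restrict (Set.Ioc t 0))).measurable

theorem occ_nonneg {d : ℕ} (x : ℝ → Fin d → ℤ) (y : Fin d → ℤ) (w : Traj d) {t : ℝ}
    (ht : 0 ≤ t) : 0 ≤ occ x y w t := by
  unfold occ
  apply intervalIntegral.integral_nonneg ht
  intro u _
  split_ifs <;> norm_num

end D2

theorem measurable_Nt {α : Type*} [MeasurableSpace α] {d : ℕ} [NeZero d] {ρ γ t : ℝ}
    (hρ : 0 < ρ) (hγ : 0 < γ) (ht : 0 < t) (x : α → ℝ → Fin d → ℤ)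
    (hx : Measurable (fun p : α × ℝ => x p.1 p.2)) :
    Measurable (fun a => Nt ρ γ t (x a)) := by
  have := walkLaw_prob d hρ.le ht
  have h1 : ∀ a y, 0 ≤ 1 - ∫ w, Real.exp (-(γ * occ (x a) y w t)) ∂(walkLaw d ρ t) := by
    intro a y
    rw [sub_nonneg]
    have h2 : ∫ w, Real.exp (-(γ * occ (x a) y w t)) ∂(walkLaw d ρ t) ≤
        ∫ w, (1:ℝ) ∂(walkLaw d ρ t) := by
      apply integral_mono_of_nonneg
      · exact Eventually.of_forall fun w => (Real.exp_nonneg _)
      · exact integrable_const 1
      · refine Eventually.of_forall fun w => ?_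
        have := D2.occ_nonneg (x a) y w ht.le
        exact Real.exp_le_one_iff.2 (by nlinarith)
    simpa using h2
  have h3 : ∀ a, Nt ρ γ t (x a) = (∑' y : Fin d → ℤ, ENNReal.ofReal
      (1 - ∫ w, Real.exp (-(γ * occ (x a) y w t)) ∂(walkLaw d ρ t))).toReal := by
    intro a
    rw [ENNReal.tsum_toReal_eq (fun y => ENNReal.ofReal_ne_top)]
    unfold Nt
    refine tsum_congr fun y => ?_
    rw [ENNReal.toReal_ofReal (h1 a y)]
  simp only [h3]
  apply Measurable.ennreal_toReal
  apply Measurable.ennreal_tsum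
  intro y
  apply Measurable.ennreal_ofReal
  apply measurable_const.sub
  have h4 : StronglyMeasurable (fun p : α × Traj d => Real.exp (-(γ * occ (x p.1) y p.2 t))) := by
    have := D2.measurable_occ x hx y t
    apply Measurable.stronglyMeasurable
    fun_prop
  exact (h4.integral_prod_right' (ν := walkLaw d ρ t)).measurable

theorem Nt_translate {d : ℕ} (ρ γ t : ℝ) (x : ℝ → Fin d → ℤ) (v : Fin d → ℤ) :
    Nt ρ γ t (fun s => v + x s) = Nt ρ γ t x := by
  unfold Nt
  rw [← (Equiv.addLeft v).tsum_eq]
  refine tsum_congr fun y => ?_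
  have h : ∀ w, occ (fun s => v + x s) (Equiv.addLeft v y) w t = occ x y w t := by
    intro w
    unfold occ
    congr 1
    funext u
    have h1 : ((Equiv.addLeft v) y + pos w u = v + x u) ↔ (y + pos w u = x u) := by
      simp only [Equiv.coe_addLeft]
      rw [add_assoc, add_right_inj]
    simp only [h1]
  simp only [h]

end Pool.Agent.H99.Trap
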