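import Mathlib

/-!
# Random walk among mobile traps: definitions
-/

namespace Pool.Agent.H99.Trap

open MeasureTheory ProbabilityTheory Filter
open scoped ENNReal NNReal Topology

/-- The unit interval `[0,1]`. -/
abbrev UI : Type := Set.Icc (0 : ℝ) 1

/-- Directions of `ℤ^d`: `(i, true)` stands for `+e_i`, `(i, false)` for `-e_i`. -/
abbrev Dir (d : ℕ) : Type := Fin d × Bool

/-- The unit vector of a direction. -/
def stp {d : ℕ} (e : Dir d) : Fin d → ℤ := Pi.single e.1 (if e.2 then 1 else -1)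

/-- A trajectory: the number of jumps and, for each jump, its time and its direction. -/
abbrev Traj (d : ℕ) : Type := Σ n : ℕ, (Fin n → ℝ × Dir d)

/-- Position at time `s` of the trajectory started at `0`: the sum of the jumps made up to
time `s`. -/
noncomputable def pos {d : ℕ} (w : Traj d) (s : ℝ) : Fin d → ℤ :=
  ∑ i : Fin w.1, if (w.2 i).1 ≤ s then stp (w.2 i).2 else 0

/-- Law of (time, direction) of a jump: time uniform on `[0,t]`, direction uniform. -/
noncomputable def jumpLaw (d : ℕ) (t : ℝ) : Measure (ℝ × Dir d) :=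
  (cond volume (Set.Icc 0 t)).prod (uniformOn Set.univ)

/-- Law on `[0,t]` of the continuous-time simple symmetric random walk with jump rate `κ`
started at `0`: the number of jumps is Poisson(`κ t`), and given it the jumps are i.i.d. with
law `jumpLaw d t`. -/
noncomputable def walkLaw (d : ℕ) (κ t : ℝ) : Measure (Traj d) :=
  Measure.sum fun n : ℕ => poissonMeasure (κ * t).toNNReal {n} •
    (Measure.pi fun _ : Fin n => jumpLaw d t).map (Sigma.mk n)

/-- Trap configurations: the number of traps started at each site, and the displacement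
trajectory of trap number `j` started at `y`, for all `(y,j)`. -/
abbrev TrapConf (d : ℕ) : Type := ((Fin d → ℤ) → ℕ) × ((Fin d → ℤ) × ℕ → Traj d)

/-- Law of the traps on `[0,t]`: i.i.d. Poisson(`ν`) numbers of traps at the sites, and
independent walks with jump rate `ρ`. -/
noncomputable def trapLaw (d : ℕ) (ν ρ t : ℝ) : Measure (TrapConf d) :=
  (Measure.infinitePi fun _ : Fin d → ℤ => poissonMeasure ν.toNNReal).prod
    (Measure.infinitePi fun _ : (Fin d → ℤ) × ℕ => walkLaw d ρ t)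

/-- `xi c s x`: the number of traps at the site `x` at time `s`. The traps started at `y` are
those with index `(y, j)`, `j < c.1 y`. -/
noncomputable def xi {d : ℕ} (c : TrapConf d) (s : ℝ) (x : Fin d → ℤ) : ℝ≥0∞ :=
  ∑' y : Fin d → ℤ, ∑ j ∈ Finset.range (c.1 y), if y + pos (c.2 (y, j)) s = x then 1 else 0

/-- `exp(-a)` for `a ∈ [0,∞]`. -/
noncomputable def expNeg (a : ℝ≥0∞) : ℝ≥0∞ :=
  if a = ∞ then 0 else ENNReal.ofReal (Real.exp (-a.toReal))

/-- The survival weight `exp(-γ ∫_0^t ξ(s, x_s) ds)` of a path `x` among the traps `c`. -/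
noncomputable def surv {d : ℕ} (γ t : ℝ) (x : ℝ → Fin d → ℤ) (c : TrapConf d) : ℝ≥0∞ :=
  expNeg (ENNReal.ofReal γ * ∫⁻ s in Set.Icc 0 t, xi c s (x s))

/-- The survival probability of the path `x`, averaged over the traps. -/
noncomputable def survAv {d : ℕ} (ν ρ γ t : ℝ) (x : ℝ → Fin d → ℤ) : ℝ≥0∞ :=
  ∫⁻ c, surv γ t x c ∂(trapLaw d ν ρ t)

/-- The annealed survival probability `Z_{γ,t}`. -/
noncomputable def Zan (d : ℕ) (ν κ ρ γ t : ℝ) : ℝ≥0∞ :=
  ∫⁻ w, survAv ν ρ γ t (pos w) ∂(walkLaw d κ t)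

/-- The annealed path measure `P_{γ,t}`: the law of the walk on `[0,t]` tilted by the survival
weight. -/
noncomputable def annLaw (d : ℕ) (ν κ ρ γ t : ℝ) : Measure (Traj d) :=
  (Zan d ν κ ρ γ t)⁻¹ • (walkLaw d κ t).withDensity fun w => survAv ν ρ γ t (pos w)

/-- The rescaled path `u ↦ X_{ut} / √t`, `0 ≤ u ≤ 1`. -/
noncomputable def scaled {d : ℕ} (t : ℝ) (w : Traj d) (u : UI) : Fin d → ℝ :=
  fun i => (pos w (u * t) i : ℝ) / √t

/-- Càdlàg functions on `[0,1]`. -/
def IsCadlag {d : ℕ} (x : UI → Fin d → ℝ) : Prop :=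
  (∀ s, ContinuousWithinAt x (Set.Ici s) s) ∧ ∀ s, ∃ l, Tendsto x (𝓝[<] s) (𝓝 l)

/-- Convergence in the Skorokhod (J1) topology of `D([0,1], ℝ^d)`: there are increasing
bijections `lam n` of `[0,1]` with `lam n u → u` and `x n (lam n u) → y u`, uniformly in `u`. -/
def J1Tendsto {d : ℕ} (x : ℕ → UI → Fin d → ℝ) (y : UI → Fin d → ℝ) : Prop :=
  ∃ lam : ℕ → (UI ≃o UI), TendstoUniformly (fun n u => (lam n u : ℝ)) (fun u => (u : ℝ)) atTop ∧
    TendstoUniformly (fun n u => x n (lam n u)) y atTop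

/-- Continuity of a functional on `D([0,1], ℝ^d)` for the Skorokhod topology. -/
def J1Continuous {d : ℕ} (Φ : (UI → Fin d → ℝ) → ℝ) : Prop :=
  ∀ (x : ℕ → UI → Fin d → ℝ) (y : UI → Fin d → ℝ), (∀ n, IsCadlag (x n)) → IsCadlag y →
    J1Tendsto x y → Tendsto (fun n => Φ (x n)) atTop (𝓝 (Φ y))

/-- The invariance principle with diffusion constant `σ`: under `P_{γ,t}` the law of the
rescaled path `(X_{ut}/√t)_{0≤u≤1}` converges weakly, in the Skorokhod space, to the law of
`(σ B_u)_{0≤u≤1}`, where `B` is a standard `d`-dimensional Brownian motion. -/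
def InvariancePrinciple (d : ℕ) (ν κ ρ γ σ : ℝ) : Prop :=
  ∃ (Ω : Type) (_ : MeasurableSpace Ω) (P : Measure Ω) (B : Fin d → ℝ≥0 → Ω → ℝ),
    (∀ i, IsBrownianReal (B i) P) ∧ iIndepFun (fun i ω s => B i s ω) P ∧
    ∀ Φ : (UI → Fin d → ℝ) → ℝ, (∃ C, ∀ x, |Φ x| ≤ C) → J1Continuous Φ →
      Tendsto (fun t : ℝ => ∫ w, Φ (scaled t w) ∂(annLaw d ν κ ρ γ t)) atTop
        (𝓝 (∫ ω, Φ (fun u i => σ * B i ⟨u, u.2.1⟩ ω) ∂P))

end Pool.Agent.H99.Trap
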