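import Pool.Agent.H99.Trap.Defs

/-!
# Random walk among mobile traps: auxiliary definitions (not used in the final statement)
-/

namespace Pool.Agent.H99.Trap

open MeasureTheory ProbabilityTheory Filter
open scoped ENNReal NNReal Topology

/-- `n`-step transition probability of the simple random walk on `ℤ^d`. -/
noncomputable def rwP (d n : ℕ) (z : Fin d → ℤ) : ℝ :=
  (Fintype.card {e : Fin n → Dir d // ∑ i, stp (e i) = z} : ℝ) / (2 * d) ^ n

/-- Heat kernel: probability that the rate 1 walk is at `z` at time `l`. -/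
noncomputable def hk (d : ℕ) (l : ℝ) (z : Fin d → ℤ) : ℝ :=
  ∑' n : ℕ, Real.exp (-l) * l ^ n / n.factorial * rwP d n z

/-- Occupation time of the moving point `x` by the trap with start `y` and trajectory `w`. -/
noncomputable def occ {d : ℕ} (x : ℝ → Fin d → ℤ) (y : Fin d → ℤ) (w : Traj d) (s : ℝ) : ℝ :=
  ∫ u in (0:ℝ)..s, if y + pos w u = x u then 1 else 0

/-- Expected number of killing traps (per unit trap density) for the path `x` on `[0,t]`. -/
noncomputable def Nt {d : ℕ} (ρ γ t : ℝ) (x : ℝ → Fin d → ℤ) : ℝ :=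
  ∑' y : Fin d → ℤ, (1 - ∫ w, Real.exp (-(γ * occ x y w t)) ∂(walkLaw d ρ t))

/-- Density of traps at `x s` at time `s`, if traps are killed at rate `γ` on the path `x`. -/
noncomputable def vden {d : ℕ} (ρ γ t : ℝ) (x : ℝ → Fin d → ℤ) (s : ℝ) : ℝ :=
  ∑' y : Fin d → ℤ,
    ∫ w, (if y + pos w s = x s then Real.exp (-(γ * occ x y w s)) else 0) ∂(walkLaw d ρ t)

/-- Folding of `ℤ^3` along the plane `x_0 = a`. -/
def fold (a : ℤ) (x : Fin 3 → ℤ) : Fin 3 → ℤ := ![|x 0 - a|, x 1, x 2]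

/-- Gain of the kernel by all foldings. -/
noncomputable def gain (l : ℝ) (x y : Fin 3 → ℤ) : ℝ≥0∞ :=
  ∑' a : ℤ, ENNReal.ofReal (hk 3 l (fold a x - fold a y) - hk 3 l (x - y))

/-- Test function on displacements. -/
noncomputable def hfun (C θ : ℝ) (z : Fin 3 → ℝ) : ℝ :=
  min 1 (max 0 (|z 0| - C)) * (max 0 (1 - |z 1| / θ) * max 0 (1 - |z 2| / θ))

/-- Test functional on paths. -/
noncomputable def Phi (C θ ε : ℝ) (x : UI → Fin 3 → ℝ) : ℝ :=
  ∫ p : UI × UI, if ε ≤ (p.1 : ℝ) - p.2 then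
    ((p.1 : ℝ) - p.2)⁻¹ * hfun C θ (fun i => (x p.1 i - x p.2 i) / √((p.1 : ℝ) - p.2)) else 0

end Pool.Agent.H99.Trap
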