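import Pool.Agent.H99.Trap.H
import Pool.Agent.H58.Trap.I2
import Pool.Agent.H47.Trap.I3
import Pool.Agent.H42.Trap.I1

namespace Pool.Agent.H99.Trap

open MeasureTheory ProbabilityTheory Filter
open scoped ENNReal NNReal Topology

theorem Phi_bound {ν κ ρ γ : ℝ} (hν : 0 < ν) (hκ : 0 < κ) (hρ : 0 < ρ) (hγ : 0 < γ) :
    ∃ C θ K : ℝ, 0 < C ∧ 0 < θ ∧ ∀ ε : ℝ, 0 < ε → ε < 1 → ∀ᶠ t : ℝ in atTop,
      ∫ w, Phi C θ ε (scaled t w) ∂(annLaw 3 ν κ ρ γ t) ≤ K :=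
  Phi_bound_of main_bound gain_lower hν hκ hρ hγ

theorem no_invariance_principle {ν κ ρ γ : ℝ} (hν : 0 < ν) (hκ : 0 < κ) (hρ : 0 < ρ)
    (hγ : 0 < γ) : ¬ ∃ σ : ℝ, 0 < σ ∧ InvariancePrinciple 3 ν κ ρ γ σ := by
  rintro ⟨σ, hσ, Ω, mΩ, P, B, hB, hind, hlim⟩
  obtain ⟨C, θ, K, hC, hθ, hK⟩ := Phi_bound hν hκ hρ hγ
  obtain ⟨ε, hε, hε1, hbig⟩ := Phi_BM hC hθ hσ hB hind K
  have h1 := hlim (Phi C θ ε) (Phi_bdd C hθ hε) (Phi_J1 C hθ hε)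
  have h2 := le_of_tendsto h1 (hK ε hε hε1)
  linarith

end Pool.Agent.H99.Trap
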