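import Pool.Agent.H99.Trap.D2
import Pool.Agent.H95.Trap.D
import Pool.Agent.H97.Trap.C
import Pool.Agent.H27.Trap.E
import Pool.Agent.H36.Trap.F2
import Pool.Agent.H69.Trap.G

namespace Pool.Agent.H99.Trap

open MeasureTheory ProbabilityTheory Filter
open scoped ENNReal NNReal Topology

theorem Nt_compare {d : ℕ} [NeZero d] {ρ γ t G : ℝ} (hρ : 0 < ρ) (hγ : 0 < γ) (ht : 0 < t)
    (hG : ∀ (z : ℝ → Fin d → ℤ), Measurable z →
      ∀ s : ℝ, 0 ≤ s → ∫ r in (0:ℝ)..s, hk d (ρ * (s - r)) (z r) ≤ G)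
    (x x' : ℝ → Fin d → ℤ) (hx : Measurable x) (hx' : Measurable x')
    (hK : ∀ r s, 0 ≤ r → r ≤ s → s ≤ t →
      hk d (ρ * (s - r)) (x s - x r) ≤ hk d (ρ * (s - r)) (x' s - x' r)) :
    γ ^ 2 * Real.exp (-(2 * γ * G)) *
      (∫ s in (0:ℝ)..t, ∫ r in (0:ℝ)..s,
        (hk d (ρ * (s - r)) (x' s - x' r) - hk d (ρ * (s - r)) (x s - x r))) ≤
      Nt ρ γ t x - Nt ρ γ t x' :=
  E.Nt_compare_of (fun h1 h2 h3 => vden_spec h1 h2 h3) hk_nonneg hk_le_one hk_neg measurable_hk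
    hρ hγ ht hG x x' hx hx' hK

end Pool.Agent.H99.Trap
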