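import Pool.Agent.H99.Trap.Glue

namespace Pool.Agent.H99.Trap

open MeasureTheory ProbabilityTheory Filter
open scoped ENNReal NNReal Topology

namespace H

/-- kernel gain of the folding at `a` along the trajectory `w` -/
noncomputable def kk (ρ : ℝ) (a : ℤ) (w : Traj 3) (s r : ℝ) : ℝ :=
  hk 3 (ρ * (s - r)) (fold a (pos w s) - fold a (pos w r)) -
    hk 3 (ρ * (s - r)) (pos w s - pos w r)

theorem measurable_fold (a : ℤ) : Measurable (fold a) := measurable_of_countable _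

theorem measurable_kk (ρ : ℝ) (a : ℤ) :
    Measurable (fun q : (Traj 3 × ℝ) × ℝ => kk ρ a q.1.1 q.1.2 q.2) := by
  unfold kk
  have h1 : Measurable (fun q : (Traj 3 × ℝ) × ℝ => pos q.1.1 q.1.2) :=
    (measurable_pos 3).comp (by fun_prop : Measurable fun q : (Traj 3 × ℝ) × ℝ => (q.1.1, q.1.2))
  have h2 : Measurable (fun q : (Traj 3 × ℝ) × ℝ => pos q.1.1 q.2) :=
    (measurable_pos 3).comp (by fun_prop : Measurable fun q : (Traj 3 × ℝ) × ℝ => (q.1.1, q.2))
  have h3 : Measurable (fun q : (Traj 3 × ℝ) × ℝ => ρ * (q.1.2 - q.2)) := by fun_prop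
  apply Measurable.sub
  · exact (measurable_hk 3).comp (h3.prodMk
      (((measurable_fold a).comp h1).sub ((measurable_fold a).comp h2)))
  · exact (measurable_hk 3).comp (h3.prodMk (h1.sub h2))

theorem kk_nonneg {ρ : ℝ} (hρ : 0 < ρ) (a : ℤ) (w : Traj 3) {s r : ℝ} (hrs : r ≤ s) :
    0 ≤ kk ρ a w s r := by
  unfold kk
  have : 0 ≤ ρ * (s - r) := mul_nonneg hρ.le (by linarith)
  linarith [hk_fold this a (pos w s) (pos w r)]

theorem kk_le_one {ρ : ℝ} (hρ : 0 < ρ) (a : ℤ) (w : Traj 3) {s r : ℝ} (hrs : r ≤ s) :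
    kk ρ a w s r ≤ 1 := by
  unfold kk
  have : 0 ≤ ρ * (s - r) := mul_nonneg hρ.le (by linarith)
  linarith [hk_le_one this (fold a (pos w s) - fold a (pos w r)),
    hk_nonneg this (pos w s - pos w r)]

/-- inner integral -/
noncomputable def In (ρ : ℝ) (a : ℤ) (w : Traj 3) (s : ℝ) : ℝ≥0∞ :=
  ∫⁻ r in Set.Icc 0 s, ENNReal.ofReal (kk ρ a w s r)

theorem measurable_In (ρ : ℝ) (a : ℤ) :
    Measurable (fun p : Traj 3 × ℝ => In ρ a p.1 p.2) := by
  unfold In
  have h1 : ∀ p : Traj 3 × ℝ, ∫⁻ r in Set.Icc 0 p.2, ENNReal.ofReal (kk ρ a p.1 p.2 r) =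
      ∫⁻ r, (if 0 ≤ r ∧ r ≤ p.2 then ENNReal.ofReal (kk ρ a p.1 p.2 r) else 0) := by
    intro p
    rw [← lintegral_indicator measurableSet_Icc]
    congr 1 with r
    by_cases h : 0 ≤ r ∧ r ≤ p.2
    · rw [Set.indicator_of_mem (by exact h), if_pos h]
    · rw [Set.indicator_of_notMem (by exact h), if_neg h]
  simp only [h1]
  apply Measurable.lintegral_prod_right' (f := fun q : (Traj 3 × ℝ) × ℝ =>
    if 0 ≤ q.2 ∧ q.2 ≤ q.1.2 then ENNReal.ofReal (kk ρ a q.1.1 q.1.2 q.2) else 0)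
  refine Measurable.ite ?_ (measurable_kk ρ a).ennreal_ofReal measurable_const
  have hA : MeasurableSet {q : (Traj 3 × ℝ) × ℝ | 0 ≤ q.2} :=
    measurableSet_le measurable_const measurable_snd
  have hB : MeasurableSet {q : (Traj 3 × ℝ) × ℝ | q.2 ≤ q.1.2} :=
    measurableSet_le measurable_snd (measurable_snd.comp measurable_fst)
  exact hA.inter hB

theorem measurable_kk_r (ρ : ℝ) (a : ℤ) (w : Traj 3) (s : ℝ) :
    Measurable (fun r : ℝ => kk ρ a w s r) := by
  have h0 : Measurable (fun r : ℝ => (((w, s) : Traj 3 × ℝ), r)) :=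
    measurable_const.prodMk measurable_id
  have h1 : (fun r : ℝ => kk ρ a w s r) = (fun q : (Traj 3 × ℝ) × ℝ => kk ρ a q.1.1 q.1.2 q.2) ∘
      (fun r : ℝ => (((w, s) : Traj 3 × ℝ), r)) := by
    funext r
    simp only [Function.comp]
  rw [h1]
  exact Measurable.comp (measurable_kk ρ a) h0

theorem measurable_In_s (ρ : ℝ) (a : ℤ) (w : Traj 3) :
    Measurable (fun s : ℝ => In ρ a w s) := by
  have h0 : Measurable (fun s : ℝ => ((w, s) : Traj 3 × ℝ)) :=
    measurable_const.prodMk measurable_id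
  exact (measurable_In ρ a).comp h0

theorem In_eq {ρ : ℝ} (hρ : 0 < ρ) (a : ℤ) (w : Traj 3) {s : ℝ} (hs : 0 ≤ s) :
    ∫ r in (0:ℝ)..s, kk ρ a w s r = (In ρ a w s).toReal := by
  rw [intervalIntegral.integral_of_le hs, ← integral_Icc_eq_integral_Ioc]
  unfold In
  rw [integral_eq_lintegral_of_nonneg_ae]
  · have h1 : ∀ᵐ r ∂(volume.restrict (Set.Icc 0 s)), 0 ≤ kk ρ a w s r := by
      rw [ae_restrict_iff' measurableSet_Icc]
      exact Eventually.of_forall fun r hr => kk_nonneg hρ a w hr.2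
    exact h1
  · exact (measurable_kk_r ρ a w s).aestronglyMeasurable

theorem In_le {ρ : ℝ} (hρ : 0 < ρ) (a : ℤ) (w : Traj 3) (s : ℝ) :
    In ρ a w s ≤ ENNReal.ofReal s := by
  unfold In
  calc ∫⁻ r in Set.Icc 0 s, ENNReal.ofReal (kk ρ a w s r)
      ≤ ∫⁻ r in Set.Icc 0 s, 1 := by
        apply setLIntegral_mono measurable_const
        intro r hr
        rw [← ENNReal.ofReal_one]
        exact ENNReal.ofReal_le_ofReal (kk_le_one hρ a w hr.2)
    _ = ENNReal.ofReal s := by simp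

/-- total gain of the folding at `a` -/
noncomputable def DD (ρ t : ℝ) (a : ℤ) (w : Traj 3) : ℝ≥0∞ :=
  ∫⁻ s in Set.Icc 0 t, In ρ a w s

theorem measurable_DD (ρ t : ℝ) (a : ℤ) : Measurable (DD ρ t a) := by
  unfold DD
  exact Measurable.lintegral_prod_right' (ν := volume.restrict (Set.Icc 0 t))
    (f := fun q : Traj 3 × ℝ => In ρ a q.1 q.2) (measurable_In ρ a)

theorem DD_eq {ρ : ℝ} (hρ : 0 < ρ) (a : ℤ) (w : Traj 3) {t : ℝ} (ht : 0 ≤ t) :
    ENNReal.ofReal (∫ s in (0:ℝ)..t, ∫ r in (0:ℝ)..s, kk ρ a w s r) = DD ρ t a w := by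
  rw [intervalIntegral.integral_of_le ht, ← integral_Icc_eq_integral_Ioc]
  have hmI : Measurable (fun s : ℝ => (In ρ a w s).toReal) :=
    (measurable_In_s ρ a w).ennreal_toReal
  have h1 : ∫ s in Set.Icc 0 t, ∫ r in (0:ℝ)..s, kk ρ a w s r =
      ∫ s in Set.Icc 0 t, (In ρ a w s).toReal := by
    apply setIntegral_congr_fun measurableSet_Icc
    intro s hs
    exact In_eq hρ a w hs.1
  rw [h1, ofReal_integral_eq_lintegral_ofReal]
  · unfold DD
    apply setLIntegral_congr_fun measurableSet_Icc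
    intro s hs
    simp only
    rw [ENNReal.ofReal_toReal]
    exact ne_top_of_le_ne_top ENNReal.ofReal_ne_top (In_le hρ a w s)
  · apply Measure.integrableOn_of_bounded (M := t)
    · simp
    · exact hmI.aestronglyMeasurable
    · rw [ae_restrict_iff' measurableSet_Icc]
      refine Eventually.of_forall fun s hs => ?_
      rw [Real.norm_of_nonneg ENNReal.toReal_nonneg]
      have h2 := In_le hρ a w s
      calc (In ρ a w s).toReal ≤ (ENNReal.ofReal s).toReal :=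
            ENNReal.toReal_mono ENNReal.ofReal_ne_top h2
        _ = s := ENNReal.toReal_ofReal hs.1
        _ ≤ t := hs.2
  · exact Eventually.of_forall fun s => ENNReal.toReal_nonneg

theorem gain_eq (ρ : ℝ) (w : Traj 3) (s r : ℝ) :
    gain (ρ * (s - r)) (pos w s) (pos w r) = ∑' a : ℤ, ENNReal.ofReal (kk ρ a w s r) := rfl

theorem sum_DD (ρ t : ℝ) (w : Traj 3) :
    ∫⁻ s in Set.Icc 0 t, ∫⁻ r in Set.Icc 0 s, gain (ρ * (s - r)) (pos w s) (pos w r) =
      ∑' a : ℤ, DD ρ t a w := by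
  unfold DD
  rw [← lintegral_tsum]
  · congr 1 with s
    simp only [gain_eq]
    rw [lintegral_tsum]
    · rfl
    · intro a
      exact (measurable_kk_r ρ a w s).ennreal_ofReal.aemeasurable
  · intro a
    exact (measurable_In_s ρ a w).aemeasurable


theorem measurable_pos_right {d : ℕ} (w : Traj d) : Measurable (pos w) := by
  have h0 : Measurable (fun s : ℝ => ((w, s) : Traj d × ℝ)) :=
    measurable_const.prodMk measurable_id
  exact (measurable_pos d).comp h0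

theorem measurable_fold_pos (a : ℤ) (w : Traj 3) :
    Measurable (fun s => fold a (pos w s)) :=
  (measurable_fold a).comp (measurable_pos_right w)

theorem measurable_fold_pos' (a : ℤ) :
    Measurable (fun p : Traj 3 × ℝ => fold a (pos p.1 p.2)) :=
  (measurable_fold a).comp (measurable_pos 3)

theorem Nt_bounds {d : ℕ} [NeZero d] {ρ γ t : ℝ} (hρ : 0 < ρ) (hγ : 0 < γ)
    (ht : 0 < t) (x : ℝ → Fin d → ℤ) (hx : Measurable x) :
    0 ≤ Nt ρ γ t x ∧ Nt ρ γ t x ≤ γ * t := by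
  obtain ⟨hm, hv, hN⟩ := vden_spec hρ hγ ht x hx
  rw [hN]
  have h0 : ∀ s ∈ Set.Icc 0 t, 0 ≤ vden ρ γ t x s := fun s hs =>
    (Real.exp_nonneg _).trans (hv s hs).2.1
  have hi : IntervalIntegrable (vden ρ γ t x) volume 0 t := by
    rw [intervalIntegrable_iff_integrableOn_Icc_of_le ht.le]
    apply Measure.integrableOn_of_bounded (M := 1)
    · simp
    · exact hm.aestronglyMeasurable
    · rw [ae_restrict_iff' measurableSet_Icc]
      refine Eventually.of_forall fun s hs => ?_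
      rw [Real.norm_of_nonneg (h0 s hs)]
      exact (hv s hs).1
  constructor
  · apply mul_nonneg hγ.le
    exact intervalIntegral.integral_nonneg ht.le h0
  · apply mul_le_mul_of_nonneg_left _ hγ.le
    calc ∫ s in (0:ℝ)..t, vden ρ γ t x s ≤ ∫ s in (0:ℝ)..t, (1:ℝ) := by
          apply intervalIntegral.integral_mono_on ht.le hi (by simp)
          intro s hs
          exact (hv s hs).1
      _ = t := by simp

section

variable {ν κ ρ γ t : ℝ} (hν : 0 < ν) (hκ : 0 < κ) (hρ : 0 < ρ) (hγ : 0 < γ) (ht : 0 < t)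

/-- survival weight -/
noncomputable def ff (ν ρ γ t : ℝ) (x : ℝ → Fin 3 → ℤ) : ℝ≥0∞ :=
  ENNReal.ofReal (Real.exp (-(ν * Nt ρ γ t x)))

include hρ hγ ht in
theorem measurable_ff (ν : ℝ) : Measurable (fun w : Traj 3 => ff ν ρ γ t (pos w)) := by
  unfold ff
  have := measurable_Nt hρ hγ ht (fun w : Traj 3 => pos w) (measurable_pos 3)
  fun_prop

include hρ hγ ht in
theorem measurable_ff_fold (ν : ℝ) (a : ℤ) :
    Measurable (fun w : Traj 3 => ff ν ρ γ t (fun s => fold a (pos w s))) := by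
  unfold ff
  have := measurable_Nt hρ hγ ht (fun w : Traj 3 => fun s => fold a (pos w s))
    (measurable_fold_pos' a)
  fun_prop

include hν hρ hγ ht in
theorem survAv_pos (w : Traj 3) : survAv ν ρ γ t (pos w) = ff ν ρ γ t (pos w) :=
  survAv_eq hν hρ hγ ht (pos w) (measurable_pos_right w)

include hν hκ hρ hγ ht in
theorem Zan_lower : ENNReal.ofReal (Real.exp (-(ν * (γ * t)))) ≤ Zan 3 ν κ ρ γ t := by
  have := walkLaw_prob 3 hκ.le ht
  unfold Zan
  simp only [survAv_pos hν hρ hγ ht]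
  calc ENNReal.ofReal (Real.exp (-(ν * (γ * t))))
      = ∫⁻ _ : Traj 3, ENNReal.ofReal (Real.exp (-(ν * (γ * t)))) ∂(walkLaw 3 κ t) := by simp
    _ ≤ _ := by
      apply lintegral_mono
      intro w
      unfold ff
      apply ENNReal.ofReal_le_ofReal
      apply Real.exp_le_exp.2
      have := (Nt_bounds hρ hγ ht (pos w) (measurable_pos_right w)).2
      nlinarith

include hν hκ hρ hγ ht in
theorem Zan_upper : Zan 3 ν κ ρ γ t ≤ 1 := by
  have := walkLaw_prob 3 hκ.le ht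
  unfold Zan
  simp only [survAv_pos hν hρ hγ ht]
  calc ∫⁻ w, ff ν ρ γ t (pos w) ∂(walkLaw 3 κ t) ≤ ∫⁻ _ : Traj 3, 1 ∂(walkLaw 3 κ t) := by
        apply lintegral_mono
        intro w
        unfold ff
        simp only
        rw [← ENNReal.ofReal_one]
        apply ENNReal.ofReal_le_ofReal
        apply Real.exp_le_one_iff.2
        have := (Nt_bounds hρ hγ ht (pos w) (measurable_pos_right w)).1
        nlinarith
    _ = 1 := by simp

include hν hκ hρ hγ ht in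
theorem Zan_ne_zero : Zan 3 ν κ ρ γ t ≠ 0 := by
  have h := Zan_lower hν hκ hρ hγ ht
  intro h0
  rw [h0, nonpos_iff_eq_zero, ENNReal.ofReal_eq_zero] at h
  exact absurd h (not_le.2 (Real.exp_pos _))

include hν hκ hρ hγ ht in
theorem Zan_ne_top : Zan 3 ν κ ρ γ t ≠ ∞ :=
  ne_top_of_le_ne_top ENNReal.one_ne_top (Zan_upper hν hκ hρ hγ ht)

include hν hρ hγ ht in
theorem lintegral_annLaw (F : Traj 3 → ℝ≥0∞) (hF : Measurable F) :
    ∫⁻ w, F w ∂(annLaw 3 ν κ ρ γ t) =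
      (Zan 3 ν κ ρ γ t)⁻¹ * ∫⁻ w, ff ν ρ γ t (pos w) * F w ∂(walkLaw 3 κ t) := by
  unfold annLaw
  simp only [survAv_pos hν hρ hγ ht]
  rw [lintegral_smul_measure, lintegral_withDensity_eq_lintegral_mul _
    (measurable_ff hρ hγ ht ν) hF]
  rfl

end

end H

theorem annLaw_prob {ν κ ρ γ t : ℝ} (hν : 0 < ν) (hκ : 0 < κ) (hρ : 0 < ρ) (hγ : 0 < γ)
    (ht : 0 < t) : IsProbabilityMeasure (annLaw 3 ν κ ρ γ t) := by
  constructor
  have h := H.lintegral_annLaw (κ := κ) hν hρ hγ ht (fun _ => 1) measurable_const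
  simp only [lintegral_const, one_mul, mul_one] at h
  rw [h]
  have h2 : ∫⁻ w, H.ff ν ρ γ t (pos w) ∂(walkLaw 3 κ t) = Zan 3 ν κ ρ γ t := by
    unfold Zan
    simp only [H.survAv_pos hν hρ hγ ht]
  rw [h2]
  exact ENNReal.inv_mul_cancel (H.Zan_ne_zero hν hκ hρ hγ ht) (H.Zan_ne_top hν hκ hρ hγ ht)


namespace H

section

variable {ν κ ρ γ t : ℝ} (hν : 0 < ν) (hκ : 0 < κ) (hρ : 0 < ρ) (hγ : 0 < γ) (ht : 0 < t)

/-- exponential inequality for one folding -/
theorem exp_ineq {ν κ ρ γ t G : ℝ} (hν : 0 < ν) (hκ : 0 < κ) (hρ : 0 < ρ) (hγ : 0 < γ)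
    (ht : 0 < t) (hG : ∀ (z : ℝ → Fin 3 → ℤ), Measurable z →
      ∀ s : ℝ, 0 ≤ s → ∫ r in (0:ℝ)..s, hk 3 (ρ * (s - r)) (z r) ≤ G)
    (a : ℤ) (Cn : Traj 3 → ℕ)
    (hfold : ∀ (g : (ℝ → Fin 3 → ℤ) → ℝ≥0∞), (∀ x v, g (fun s => v + x s) = g x) →
      Measurable (fun w : Traj 3 => g (pos w)) →
      Measurable (fun w : Traj 3 => g (fun s => fold a (pos w s))) →
      ∫⁻ w, g (fun s => fold a (pos w s)) * (2⁻¹ : ℝ≥0∞) ^ (Cn w) ∂(walkLaw 3 κ t) ≤
        ∫⁻ w, g (pos w) ∂(walkLaw 3 κ t)) (hCn : Measurable Cn) :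
    ∫⁻ w, ENNReal.ofReal (Real.exp (ν * (γ ^ 2 * Real.exp (-(2 * γ * G))) * (DD ρ t a w).toReal -
      Cn w * Real.log 2)) ∂(annLaw 3 ν κ ρ γ t) ≤ 1 := by
  set c : ℝ := ν * (γ ^ 2 * Real.exp (-(2 * γ * G))) with hc
  have hmeas : Measurable (fun w => ENNReal.ofReal (Real.exp (c * (DD ρ t a w).toReal -
      Cn w * Real.log 2))) := by
    have h1 := measurable_DD ρ t a
    have h2 : Measurable (fun w => (Cn w : ℝ)) := (measurable_of_countable _).comp hCn
    have h3 : Measurable (fun w => (DD ρ t a w).toReal) := h1.ennreal_toReal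
    fun_prop
  rw [lintegral_annLaw hν hρ hγ ht _ hmeas]
  have key : ∀ w : Traj 3, ff ν ρ γ t (pos w) * ENNReal.ofReal (Real.exp
      (c * (DD ρ t a w).toReal - Cn w * Real.log 2)) ≤
      ff ν ρ γ t (fun s => fold a (pos w s)) * (2⁻¹ : ℝ≥0∞) ^ (Cn w) := by
    intro w
    have h1 := Nt_compare hρ hγ ht hG (pos w) (fun s => fold a (pos w s))
      (measurable_pos_right w) (measurable_fold_pos a w) (by
        intro r s hr hrs hst
        exact hk_fold (mul_nonneg hρ.le (by linarith)) a _ _)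
    have h2 : (DD ρ t a w).toReal = ∫ s in (0:ℝ)..t, ∫ r in (0:ℝ)..s, kk ρ a w s r := by
      rw [← DD_eq hρ a w ht.le, ENNReal.toReal_ofReal]
      apply intervalIntegral.integral_nonneg ht.le
      intro s hs
      apply intervalIntegral.integral_nonneg hs.1
      intro r hr
      exact kk_nonneg hρ a w hr.2
    have h3 : (2⁻¹ : ℝ≥0∞) ^ (Cn w) = ENNReal.ofReal (Real.exp (-(Cn w * Real.log 2))) := by
      have h4 : Real.exp (-(Cn w * Real.log 2)) = (2⁻¹ : ℝ) ^ (Cn w) := by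
        rw [Real.exp_neg, mul_comm, Real.exp_mul, Real.exp_log (by norm_num), inv_pow,
          Real.rpow_natCast]
      rw [h4, ENNReal.ofReal_pow (by norm_num), ENNReal.ofReal_inv_of_pos (by norm_num)]
      simp
    rw [h3]
    unfold ff
    rw [← ENNReal.ofReal_mul (Real.exp_nonneg _), ← ENNReal.ofReal_mul (Real.exp_nonneg _),
      ← Real.exp_add, ← Real.exp_add]
    apply ENNReal.ofReal_le_ofReal
    apply Real.exp_le_exp.2
    rw [h2]
    have h5 : γ ^ 2 * Real.exp (-(2 * γ * G)) *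
      (∫ s in (0:ℝ)..t, ∫ r in (0:ℝ)..s, kk ρ a w s r) ≤
      Nt ρ γ t (pos w) - Nt ρ γ t (fun s => fold a (pos w s)) := h1
    have h6 := mul_le_mul_of_nonneg_left h5 hν.le
    rw [hc]
    nlinarith [h6]
  have hfo := hfold (ff ν ρ γ t) (by
      intro x v
      unfold ff
      rw [Nt_translate]) (measurable_ff hρ hγ ht ν) (measurable_ff_fold hρ hγ ht ν a)
  have h2 : ∫⁻ w, ff ν ρ γ t (pos w) ∂(walkLaw 3 κ t) = Zan 3 ν κ ρ γ t := by
    unfold Zan
    simp only [survAv_pos hν hρ hγ ht]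
  calc (Zan 3 ν κ ρ γ t)⁻¹ * ∫⁻ w, ff ν ρ γ t (pos w) * ENNReal.ofReal (Real.exp
      (c * (DD ρ t a w).toReal - Cn w * Real.log 2)) ∂(walkLaw 3 κ t)
      ≤ (Zan 3 ν κ ρ γ t)⁻¹ * Zan 3 ν κ ρ γ t := by
        gcongr
        rw [← h2]
        exact (lintegral_mono key).trans hfo
    _ = 1 := ENNReal.inv_mul_cancel (Zan_ne_zero hν hκ hρ hγ ht) (Zan_ne_top hν hκ hρ hγ ht)

theorem DD_ne_top {ρ : ℝ} (hρ : 0 < ρ) {t : ℝ} (a : ℤ) (w : Traj 3) :
    DD ρ t a w ≠ ∞ := by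
  unfold DD
  have h : ∫⁻ s in Set.Icc 0 t, In ρ a w s ≤ ∫⁻ s in Set.Icc 0 t, ENNReal.ofReal t := by
    apply setLIntegral_mono measurable_const
    intro s hs
    exact (In_le hρ a w s).trans (ENNReal.ofReal_le_ofReal hs.2)
  refine ne_top_of_le_ne_top ?_ h
  rw [setLIntegral_const]
  exact ENNReal.mul_ne_top ENNReal.ofReal_ne_top (by simp)

theorem lin_ineq {ν κ ρ γ t c : ℝ} (hc : 0 ≤ c) (hρ : 0 < ρ)
    (a : ℤ) (Cn : Traj 3 → ℕ) (hCn : Measurable Cn) (P : Measure (Traj 3))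
    [IsProbabilityMeasure P]
    (h : ∫⁻ w, ENNReal.ofReal (Real.exp (c * (DD ρ t a w).toReal - Cn w * Real.log 2)) ∂P ≤ 1) :
    ENNReal.ofReal c * ∫⁻ w, DD ρ t a w ∂P ≤ ENNReal.ofReal (Real.log 2) * ∫⁻ w, (Cn w : ℝ≥0∞) ∂P := by
  have hlog : 0 ≤ Real.log 2 := Real.log_nonneg (by norm_num)
  have hCm : Measurable (fun w => (Cn w : ℝ≥0∞)) := (measurable_of_countable _).comp hCn
  have hmeas : Measurable (fun w => ENNReal.ofReal (Real.exp (c * (DD ρ t a w).toReal -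
      Cn w * Real.log 2))) := by
    have h2 : Measurable (fun w => (Cn w : ℝ)) := (measurable_of_countable _).comp hCn
    have h3 : Measurable (fun w => (DD ρ t a w).toReal) := (measurable_DD ρ t a).ennreal_toReal
    fun_prop
  have key : ∀ w, ENNReal.ofReal c * DD ρ t a w + 1 ≤
      ENNReal.ofReal (Real.exp (c * (DD ρ t a w).toReal - Cn w * Real.log 2)) +
        ENNReal.ofReal (Real.log 2) * (Cn w : ℝ≥0∞) := by
    intro w
    have h1 : ENNReal.ofReal c * DD ρ t a w = ENNReal.ofReal (c * (DD ρ t a w).toReal) := by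
      rw [ENNReal.ofReal_mul hc, ENNReal.ofReal_toReal (DD_ne_top hρ a w)]
    have h2 : ENNReal.ofReal (Real.log 2) * (Cn w : ℝ≥0∞) =
        ENNReal.ofReal (Real.log 2 * Cn w) := by
      rw [ENNReal.ofReal_mul hlog, ENNReal.ofReal_natCast]
    rw [h1, h2, ← ENNReal.ofReal_one, ← ENNReal.ofReal_add (by positivity) (by norm_num),
      ← ENNReal.ofReal_add (Real.exp_nonneg _) (by positivity)]
    apply ENNReal.ofReal_le_ofReal
    have := Real.add_one_le_exp (c * (DD ρ t a w).toReal - Cn w * Real.log 2)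
    linarith
  have h3 := lintegral_mono (μ := P) key
  rw [lintegral_add_right _ measurable_const, lintegral_add_left hmeas,
    lintegral_const_mul _ (measurable_DD ρ t a), lintegral_const_mul _ hCm] at h3
  simp only [lintegral_const, measure_univ, mul_one] at h3
  have h4 : ENNReal.ofReal c * ∫⁻ w, DD ρ t a w ∂P + 1 ≤
      ENNReal.ofReal (Real.log 2) * ∫⁻ w, (Cn w : ℝ≥0∞) ∂P + 1 := by
    refine h3.trans ?_
    rw [add_comm]
    gcongr
  exact (ENNReal.add_le_add_iff_right ENNReal.one_ne_top).1 h4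

/-- number of jumps under the annealed law -/
theorem jumps_le {ν κ ρ γ t : ℝ} (hν : 0 < ν) (hκ : 0 < κ) (hρ : 0 < ρ) (hγ : 0 < γ)
    (ht : 0 < t) :
    ∫⁻ w, (w.1 : ℝ≥0∞) ∂(annLaw 3 ν κ ρ γ t) ≤
      ENNReal.ofReal ((ν * γ + (Real.exp 1 - 1) * κ) * t) := by
  have hP := annLaw_prob hν hκ hρ hγ ht
  set L := (ν * γ + (Real.exp 1 - 1) * κ) * t with hL
  have he : 0 ≤ Real.exp 1 - 1 := by linarith [Real.add_one_le_exp (1:ℝ)]
  have hL0 : 0 ≤ L := by positivity
  have hm1 : Measurable (fun w : Traj 3 => (w.1 : ℝ≥0∞)) := by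
    apply measurable_of_sigma
    intro n
    exact (measurable_const : Measurable fun _ : Fin n → ℝ × Dir 3 => (n : ℝ≥0∞))
  have hm2 : Measurable (fun w : Traj 3 => ENNReal.ofReal (Real.exp ((w.1 : ℝ)))) := by
    apply measurable_of_sigma
    intro n
    exact (measurable_const : Measurable fun _ : Fin n → ℝ × Dir 3 =>
      ENNReal.ofReal (Real.exp (n : ℝ)))
  have hexp : ∫⁻ w, ENNReal.ofReal (Real.exp ((w.1 : ℝ))) ∂(annLaw 3 ν κ ρ γ t) ≤
      ENNReal.ofReal (Real.exp L) := by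
    rw [lintegral_annLaw hν hρ hγ ht _ hm2]
    have h1 : ∫⁻ w, ff ν ρ γ t (pos w) * ENNReal.ofReal (Real.exp ((w.1 : ℝ)))
        ∂(walkLaw 3 κ t) ≤ ENNReal.ofReal (Real.exp ((Real.exp 1 - 1) * (κ * t))) := by
      rw [← walkLaw_exp 3 hκ.le ht]
      apply lintegral_mono
      intro w
      have : ff ν ρ γ t (pos w) ≤ 1 := by
        unfold ff
        rw [← ENNReal.ofReal_one]
        apply ENNReal.ofReal_le_ofReal
        apply Real.exp_le_one_iff.2
        have := (Nt_bounds hρ hγ ht (pos w) (measurable_pos_right w)).1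
        nlinarith
      calc ff ν ρ γ t (pos w) * ENNReal.ofReal (Real.exp ((w.1 : ℝ)))
          ≤ 1 * ENNReal.ofReal (Real.exp ((w.1 : ℝ))) := by gcongr
        _ = _ := one_mul _
    have h2 : (Zan 3 ν κ ρ γ t)⁻¹ ≤ ENNReal.ofReal (Real.exp (ν * (γ * t))) := by
      have h3 := ENNReal.inv_le_inv.2 (Zan_lower hν hκ hρ hγ ht)
      rw [← ENNReal.ofReal_inv_of_pos (Real.exp_pos _), ← Real.exp_neg, neg_neg] at h3
      exact h3
    calc _ ≤ ENNReal.ofReal (Real.exp (ν * (γ * t))) *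
          ENNReal.ofReal (Real.exp ((Real.exp 1 - 1) * (κ * t))) := mul_le_mul' h2 h1
      _ = ENNReal.ofReal (Real.exp L) := by
        rw [← ENNReal.ofReal_mul (Real.exp_nonneg _), ← Real.exp_add, hL]
        congr 2
        ring
  have key : ∀ w : Traj 3, (w.1 : ℝ≥0∞) + 1 ≤
      ENNReal.ofReal (Real.exp (-L)) * ENNReal.ofReal (Real.exp ((w.1 : ℝ))) +
        ENNReal.ofReal L := by
    intro w
    rw [← ENNReal.ofReal_natCast, ← ENNReal.ofReal_one, ← ENNReal.ofReal_add (by positivity)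
      (by norm_num), ← ENNReal.ofReal_mul (Real.exp_nonneg _), ← Real.exp_add,
      ← ENNReal.ofReal_add (Real.exp_nonneg _) hL0]
    apply ENNReal.ofReal_le_ofReal
    have := Real.add_one_le_exp (-L + (w.1 : ℝ))
    linarith
  have h3 := lintegral_mono (μ := annLaw 3 ν κ ρ γ t) key
  rw [lintegral_add_right _ measurable_const, lintegral_add_right _ measurable_const,
    lintegral_const_mul _ hm2] at h3
  simp only [lintegral_const, measure_univ, mul_one] at h3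
  have h4 : ∫⁻ w, (w.1 : ℝ≥0∞) ∂(annLaw 3 ν κ ρ γ t) + 1 ≤ ENNReal.ofReal L + 1 := by
    refine h3.trans ?_
    rw [add_comm]
    gcongr
    calc ENNReal.ofReal (Real.exp (-L)) *
        ∫⁻ w, ENNReal.ofReal (Real.exp ((w.1 : ℝ))) ∂(annLaw 3 ν κ ρ γ t)
        ≤ ENNReal.ofReal (Real.exp (-L)) * ENNReal.ofReal (Real.exp L) := by gcongr
      _ = 1 := by
        rw [← ENNReal.ofReal_mul (Real.exp_nonneg _), ← Real.exp_add]
        simp
  exact (ENNReal.add_le_add_iff_right ENNReal.one_ne_top).1 h4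

end

end H

theorem main_bound {ν κ ρ γ : ℝ} (hν : 0 < ν) (hκ : 0 < κ) (hρ : 0 < ρ) (hγ : 0 < γ) :
    ∃ K : ℝ, 0 < K ∧ ∀ t > 0,
      ∫⁻ w, (∫⁻ s in Set.Icc 0 t, ∫⁻ r in Set.Icc 0 s, gain (ρ * (s - r)) (pos w s) (pos w r))
        ∂(annLaw 3 ν κ ρ γ t) ≤ ENNReal.ofReal (K * t) := by
  obtain ⟨G, hG⟩ := hk_int_bound hρ
  set c : ℝ := ν * (γ ^ 2 * Real.exp (-(2 * γ * G))) with hc
  have hc0 : 0 < c := by positivity
  have he : 0 < Real.exp 1 - 1 := by linarith [Real.add_one_le_exp (1:ℝ)]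
  have hlog : 0 < Real.log 2 := Real.log_pos (by norm_num)
  refine ⟨Real.log 2 * (ν * γ + (Real.exp 1 - 1) * κ) / c, by positivity, fun t ht => ?_⟩
  have hP := annLaw_prob hν hκ hρ hγ ht
  obtain ⟨Cn, hCm, hCs, hCf⟩ := folding hκ ht
  simp only [H.sum_DD]
  rw [lintegral_tsum (fun a => (H.measurable_DD ρ t a).aemeasurable)]
  have h1 : ∀ a, ENNReal.ofReal c * ∫⁻ w, H.DD ρ t a w ∂(annLaw 3 ν κ ρ γ t) ≤
      ENNReal.ofReal (Real.log 2) * ∫⁻ w, (Cn a w : ℝ≥0∞) ∂(annLaw 3 ν κ ρ γ t) := by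
    intro a
    apply H.lin_ineq (ν := ν) (κ := κ) (γ := γ) hc0.le hρ a (Cn a) (hCm a)
    exact H.exp_ineq hν hκ hρ hγ ht hG a (Cn a) (hCf a) (hCm a)
  have h2 : ENNReal.ofReal c * ∑' a, ∫⁻ w, H.DD ρ t a w ∂(annLaw 3 ν κ ρ γ t) ≤
      ENNReal.ofReal (Real.log 2 * ((ν * γ + (Real.exp 1 - 1) * κ) * t)) := by
    rw [← ENNReal.tsum_mul_left]
    calc _ ≤ ∑' a, ENNReal.ofReal (Real.log 2) * ∫⁻ w, (Cn a w : ℝ≥0∞) ∂(annLaw 3 ν κ ρ γ t) :=
          ENNReal.tsum_le_tsum h1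
      _ = ENNReal.ofReal (Real.log 2) * ∫⁻ w, ∑' a, (Cn a w : ℝ≥0∞) ∂(annLaw 3 ν κ ρ γ t) := by
          rw [ENNReal.tsum_mul_left, lintegral_tsum]
          intro a
          exact ((measurable_of_countable _).comp (hCm a)).aemeasurable
      _ ≤ ENNReal.ofReal (Real.log 2) * ∫⁻ w, (w.1 : ℝ≥0∞) ∂(annLaw 3 ν κ ρ γ t) := by
          gcongr with w
          exact hCs w
      _ ≤ ENNReal.ofReal (Real.log 2) *
          ENNReal.ofReal ((ν * γ + (Real.exp 1 - 1) * κ) * t) := by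
          gcongr
          exact H.jumps_le hν hκ hρ hγ ht
      _ = _ := by rw [← ENNReal.ofReal_mul hlog.le]
  have h3 : ∑' a, ∫⁻ w, H.DD ρ t a w ∂(annLaw 3 ν κ ρ γ t) ≤
      (ENNReal.ofReal c)⁻¹ *
        ENNReal.ofReal (Real.log 2 * ((ν * γ + (Real.exp 1 - 1) * κ) * t)) := by
    have h4 := mul_le_mul' (le_refl (ENNReal.ofReal c)⁻¹) h2
    rwa [← mul_assoc, ENNReal.inv_mul_cancel (by simpa using hc0) ENNReal.ofReal_ne_top,
      one_mul] at h4
  refine h3.trans (le_of_eq ?_)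
  rw [← ENNReal.ofReal_inv_of_pos hc0, ← ENNReal.ofReal_mul (by positivity)]
  congr 1
  field_simp

end Pool.Agent.H99.Trap
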